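import Pool.Agent.W268.Dy.BlowA

/-! Blow-up, part B: no regular solution from large data concentrated at the root -/

namespace Pool.Agent.W268.Dy

open Finset Filter Topology

variable {K : ℕ}

theorem gS_nonneg (n : ℕ) {x : Node K → ℝ} (hx : ∀ w, 0 ≤ x w) : 0 ≤ gS n x :=
  Pool.Agent.W455.DyGal.gsum_nonneg _ _ fun w => mul_nonneg (hx w) (ch_nonneg hx w)

theorem Fn_le (hK : 0 < K) {q c ε : ℝ} (hq : 0 < q) (hc : 1 < c) (hε : 0 < ε)
    {r : ℝ} (hr : r = c * K / q ^ 2) (hr1 : r < 1) (N : ℕ) {x : Node K → ℝ} (hx : ∀ w, 0 ≤ x w)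
    {τ : ℝ} (hτ : 0 < τ) :
    Fn c ε N x ≤ (1 + ε * K / 2 + ε / (2 * c)) * (1 / (1 - r)) *
      (τ * (Gn c q N x + (c * q) ^ (N + 1) * g3 (N + 1) x) + 1 / τ ^ 2) := by
  have hK' : (0:ℝ) < K := by exact_mod_cast hK
  have hc0 : 0 < c := by linarith
  have hcq : 0 < c * q := by positivity
  have hr0 : 0 ≤ r := by rw [hr]; positivity
  obtain ⟨U, hU⟩ : ∃ U : ℕ → ℝ, U = fun n => c ^ n * g2 n x := ⟨_, rfl⟩
  obtain ⟨P, hP⟩ : ∃ P : ℕ → ℝ, P = fun n => (c * q) ^ n * g3 n x := ⟨_, rfl⟩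
  have hU0 : ∀ n, 0 ≤ U n := fun n => by
    rw [hU]; exact mul_nonneg (by positivity) (g2_nonneg n x)
  have hP0 : ∀ n, 0 ≤ P n := fun n => by
    rw [hP]; exact mul_nonneg (by positivity) (g3_nonneg n hx)
  have h1 : ∀ n, c ^ n * (g2 n x + ε * gS n x) ≤ (1 + ε * K / 2) * U n + ε / (2 * c) * U (n + 1) := by
    intro n
    have a1 := mul_le_mul_of_nonneg_left (gS_le n x) hε.le
    have a2 : g2 n x + ε * gS n x ≤ (1 + ε * K / 2) * g2 n x + ε / 2 * g2 (n + 1) x := by linarith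
    have a3 := mul_le_mul_of_nonneg_left a2 (show 0 ≤ c ^ n by positivity)
    refine a3.trans (le_of_eq ?_)
    rw [hU]
    simp only [pow_succ]
    field_simp
  have h2 : Fn c ε N x ≤ (1 + ε * K / 2 + ε / (2 * c)) * ∑ n ∈ range (N + 2), U n := by
    have b1 : ∑ n ∈ range (N + 2), U n = ∑ n ∈ range (N + 1), U n + U (N + 1) :=
      Finset.sum_range_succ _ _
    have b2 := sum_shift (hU0 0) N
    have b3 : Fn c ε N x ≤ (1 + ε * K / 2) * ∑ n ∈ range (N + 1), U n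
        + ε / (2 * c) * ∑ n ∈ range (N + 1), U (n + 1) := by
      rw [Finset.mul_sum, Finset.mul_sum, ← Finset.sum_add_distrib]
      exact Finset.sum_le_sum fun n _ => h1 n
    have b4 := mul_le_mul_of_nonneg_left b2 (show 0 ≤ ε / (2 * c) by positivity)
    have b5 : 0 ≤ (1 + ε * K / 2) * U (N + 1) := mul_nonneg (by positivity) (hU0 _)
    rw [b1]
    linarith
  have h3 : ∑ n ∈ range (N + 2), U n ≤ τ * (Gn c q N x + P (N + 1)) + 1 / τ ^ 2 * (1 / (1 - r)) := by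
    have c1 : ∀ n, U n ≤ τ * P n + 1 / τ ^ 2 * r ^ n := by
      intro n
      have d1 := young_gen (K := K) n (show 0 < c ^ n by positivity)
        (show 0 < τ * (c * q) ^ n by positivity) hx
      rw [hU, hP]
      refine d1.trans (le_of_eq ?_)
      rw [hr]
      simp only [mul_pow, div_pow]
      field_simp
      ring
    have c2 : Gn c q N x + P (N + 1) = ∑ n ∈ range (N + 2), P n := by
      rw [Finset.sum_range_succ _ (N + 1), hP]; rfl
    rw [c2, Finset.mul_sum]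
    calc ∑ n ∈ range (N + 2), U n ≤ ∑ n ∈ range (N + 2), (τ * P n + 1 / τ ^ 2 * r ^ n) :=
          Finset.sum_le_sum fun n _ => c1 n
      _ = ∑ n ∈ range (N + 2), τ * P n + 1 / τ ^ 2 * ∑ n ∈ range (N + 2), r ^ n := by
          rw [Finset.sum_add_distrib, Finset.mul_sum]
      _ ≤ _ := by
          have := mul_le_mul_of_nonneg_left (geo_le hr0 hr1 (N + 2))
            (show 0 ≤ 1 / τ ^ 2 by positivity)
          linarith
  have h4 : 1 ≤ 1 / (1 - r) := by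
    rw [le_div_iff₀ (by linarith)]; linarith
  have h5 : 0 ≤ τ * (Gn c q N x + P (N + 1)) := by
    have : 0 ≤ Gn c q N x := Finset.sum_nonneg fun n _ =>
      mul_nonneg (by positivity) (g3_nonneg n hx)
    exact mul_nonneg hτ.le (add_nonneg this (hP0 _))
  have h6 : ∑ n ∈ range (N + 2), U n ≤ 1 / (1 - r) * (τ * (Gn c q N x + P (N + 1)) + 1 / τ ^ 2) := by
    have := mul_le_mul_of_nonneg_right h4 h5
    linarith
  have h7 := mul_le_mul_of_nonneg_left h6 (show 0 ≤ 1 + ε * K / 2 + ε / (2 * c) by positivity)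
  refine h2.trans (h7.trans (le_of_eq ?_))
  rw [hP]
  ring

/-- regular solution on `[0, T]` -/
structure RegOn {K : ℕ} (ν μ q T : ℝ) (X : ℝ → Node K → ℝ) : Prop where
  nonneg : ∀ t, 0 ≤ t → t ≤ T → ∀ w, 0 ≤ X t w
  cont : ∀ w, ContinuousOn (fun t => X t w) (Set.Icc 0 T)
  ode : ∀ w, ∀ t, 0 < t → t < T → HasDerivAt (fun s => X s w) (rhs ν μ q (X t) w) t
  dec : ∀ m : ℕ, ∃ C : ℝ, ∀ t, 0 ≤ t → t ≤ T → ∀ w, 2 ^ (m * w.length) * X t w ≤ C

theorem RegOn.bound {ν μ q T : ℝ} {X : ℝ → Node K → ℝ} (h : RegOn ν μ q T X) {ρ : ℝ} (hρ : 0 < ρ) :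
    ∃ C, 0 ≤ C ∧ ∀ t, 0 ≤ t → t ≤ T → ∀ w, X t w ≤ C * ρ ^ w.length := by
  obtain ⟨m, hm⟩ := exists_pow_lt_of_lt_one hρ (show (1/2:ℝ) < 1 by norm_num)
  obtain ⟨C, hC⟩ := h.dec m
  refine ⟨|C|, abs_nonneg _, fun t ht htT w => ?_⟩
  have h1 := hC t ht htT w
  have h2 : (0:ℝ) < 2 ^ (m * w.length) := by positivity
  have h3 : X t w ≤ C / 2 ^ (m * w.length) := by rw [le_div_iff₀ h2]; linarith
  have h4 : C / 2 ^ (m * w.length) ≤ |C| * (1 / 2 ^ (m * w.length)) := by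
    rw [mul_one_div]
    exact div_le_div_of_nonneg_right (le_abs_self C) h2.le
  refine h3.trans (h4.trans (mul_le_mul_of_nonneg_left ?_ (abs_nonneg _)))
  calc (1:ℝ) / 2 ^ (m * w.length) = ((1 / 2) ^ m) ^ w.length := by
        rw [← pow_mul, div_pow, one_pow]
    _ ≤ ρ ^ w.length := pow_le_pow_left₀ (by positivity) hm.le _

theorem Fn_deriv {ν μ q c ε T : ℝ} {X : ℝ → Node K → ℝ} (h : RegOn ν μ q T X) (N : ℕ) {t : ℝ}
    (ht : 0 < t) (htT : t < T) :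
    HasDerivAt (fun s => Fn c ε N (X s)) (dFn ν μ q c ε N (X t)) t := by
  unfold Fn dFn
  apply HasDerivAt.fun_sum
  intro n _
  apply HasDerivAt.const_mul
  apply HasDerivAt.add
  · unfold g2 dE
    apply Pool.Agent.W64.Dy.gsum_hasDerivAt n (fun s w => X s w ^ 2)
    intro w _
    have h1 := (h.ode w t ht htT).pow 2
    refine h1.congr_deriv ?_
    simp
  · apply HasDerivAt.const_mul
    unfold gS dX
    apply Pool.Agent.W64.Dy.gsum_hasDerivAt n (fun s w => X s w * ch (X s) w)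
    intro w _
    have h1 : HasDerivAt (fun s => ch (X s) w) (∑ c : Fin K, rhs ν μ q (X t) (c :: w)) t :=
      HasDerivAt.fun_sum fun c _ => h.ode (c :: w) t ht htT
    exact (h.ode w t ht htT).mul h1

theorem Fn_cont {ν μ q c ε T : ℝ} {X : ℝ → Node K → ℝ} (h : RegOn ν μ q T X) (N : ℕ) :
    ContinuousOn (fun s => Fn c ε N (X s)) (Set.Icc 0 T) := by
  unfold Fn
  apply continuousOn_finsetSum
  intro n _
  apply continuousOn_const.mul
  apply ContinuousOn.add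
  · exact Pool.Agent.W64.Dy.gsum_continuousOn n (fun s w => X s w ^ 2) _ fun w => (h.cont w).pow 2
  · apply continuousOn_const.mul
    apply Pool.Agent.W64.Dy.gsum_continuousOn n (fun s w => X s w * ch (X s) w)
    intro w
    exact (h.cont w).mul (continuousOn_finsetSum _ fun c _ => h.cont (c :: w))

/-- blow-up for `q² > K μ³` -/
theorem blow (hE : S_bE) (hX : S_bX) (hO : S_bO) (hK : 0 < K) {ν μ q : ℝ} (hν : 0 < ν)
    (hμ : 1 < μ) (hq : 0 < q) (hh : K * μ ^ 3 < q ^ 2) {T : ℝ} (hT : 0 < T) :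
    ∃ u : Node K → ℝ, (∀ w, 0 ≤ u w) ∧ (∀ w, w ≠ [] → u w = 0) ∧
      ¬ ∃ X : ℝ → Node K → ℝ, RegOn ν μ q T X ∧ X 0 = u := by
  classical
  have hK' : (0:ℝ) < K := by exact_mod_cast hK
  have hμ0 : 0 < μ := by linarith
  have hKμ : 0 < K * μ ^ 3 := by positivity
  -- the weight
  obtain ⟨c, hc1, hc2⟩ : ∃ c : ℝ, 1 < c ∧ c * (K * μ ^ 3) < q ^ 2 := by
    refine ⟨(1 + q ^ 2 / (K * μ ^ 3)) / 2, ?_, ?_⟩
    · have : 1 < q ^ 2 / (K * μ ^ 3) := by rw [one_lt_div hKμ]; exact hh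
      linarith
    · have : (1 + q ^ 2 / (K * μ ^ 3)) / 2 * (K * μ ^ 3) = (K * μ ^ 3 + q ^ 2) / 2 := by field_simp
      rw [this]; linarith
  have hc0 : 0 < c := by linarith
  have hcq : 0 < c * q := by positivity
  have hq2 : 0 < q ^ 2 := by positivity
  obtain ⟨r, hr⟩ : ∃ r, r = c * K * μ ^ 3 / q ^ 2 := ⟨_, rfl⟩
  have hr1 : r < 1 := by rw [hr, div_lt_one hq2]; linarith
  obtain ⟨r2, hr2⟩ : ∃ r2, r2 = c * K / q ^ 2 := ⟨_, rfl⟩
  have hr21 : r2 < 1 := by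
    rw [hr2, div_lt_one hq2]
    have : 1 < μ ^ 3 := one_lt_pow₀ hμ (by norm_num)
    have : c * K * 1 < c * K * μ ^ 3 := mul_lt_mul_of_pos_left this (by positivity)
    linarith
  obtain ⟨L, hL⟩ : ∃ L, L = K / c + q ^ 2 / 2 + K / (4 * c ^ 3) := ⟨_, rfl⟩
  have hL0 : 0 < L := by rw [hL]; positivity
  obtain ⟨ε, hε⟩ : ∃ ε, ε = 2 * (c - 1) * q / L := ⟨_, rfl⟩
  have hε0 : 0 < ε := by
    rw [hε]
    have : 0 < c - 1 := by linarith
    positivity
  have hε1 : ε * (K / c + q ^ 2 / 2 + K / (4 * c ^ 3)) ≤ 2 * (c - 1) * q := by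
    rw [← hL, hε, div_mul_cancel₀ _ hL0.ne']
  obtain ⟨Cv, hCv⟩ : ∃ Cv, Cv = 2 * ν + ε * ν * (1 + μ) * (K / 2 + 1 / (2 * c * μ)) := ⟨_, rfl⟩
  have hCv0 : 0 < Cv := by rw [hCv]; positivity
  obtain ⟨δ, hδ⟩ : ∃ δ, δ = ε * K * q / (4 * Cv) := ⟨_, rfl⟩
  have hδ0 : 0 < δ := by rw [hδ]; positivity
  obtain ⟨c1, hc1'⟩ : ∃ c1, c1 = ε * K * q / 4 := ⟨_, rfl⟩
  have hc10 : 0 < c1 := by rw [hc1']; positivity
  have hcoef : ε * K * q / 2 - Cv * δ = c1 := by rw [hδ, hc1']; field_simp; ring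
  obtain ⟨C2, hC2⟩ : ∃ C2, C2 = Cv * (1 / δ ^ 2 * (1 / (1 - r))) := ⟨_, rfl⟩
  have hC20 : 0 < C2 := by
    rw [hC2]
    have : 0 < 1 - r := by linarith
    positivity
  obtain ⟨D, hD⟩ : ∃ D, D = ε * K * q + Cv * δ + (2 * c * q) * (K + 1 / (c * q))
    + ε * K / (4 * c ^ 3) * (K + 1 / (c * q)) := ⟨_, rfl⟩
  have hD0 : 0 < D := by rw [hD]; positivity
  obtain ⟨C3, hC3⟩ : ∃ C3, C3 = (1 + ε * K / 2 + ε / (2 * c)) * (1 / (1 - r2)) := ⟨_, rfl⟩
  have hC30 : 0 < C3 := by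
    rw [hC3]
    have : 0 < 1 - r2 := by linarith
    positivity
  obtain ⟨R0, hR0, hO'⟩ := hO c1 (C2 + D + c1) C3 T hc10 (by positivity) hC30 hT
  refine ⟨fun w => if w = [] then R0 + 1 else 0, fun w => ?_, fun w hw => by simp [hw], ?_⟩
  · simp only; split_ifs <;> linarith
  rintro ⟨X, hXr, hX0⟩
  -- decay
  obtain ⟨ρ, hρ⟩ : ∃ ρ, ρ = 1 / (1 + 2 * (K * (c * q))) := ⟨_, rfl⟩
  have hρ0 : 0 < ρ := by rw [hρ]; positivity
  have hρ1 : ρ ≤ 1 := by
    rw [hρ, div_le_one (by positivity)]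
    have : 0 < 2 * (K * (c * q)) := by positivity
    linarith
  have hρ2 : K * (c * q) * ρ ^ 3 ≤ 1 / 2 := by
    have h1 : K * (c * q) * ρ ≤ 1 / 2 := by
      rw [hρ, mul_one_div, div_le_iff₀ (by positivity)]; linarith
    have h2 : ρ ^ 2 ≤ 1 := pow_le_one₀ hρ0.le hρ1
    calc K * (c * q) * ρ ^ 3 = K * (c * q) * ρ * ρ ^ 2 := by ring
      _ ≤ 1 / 2 * 1 := mul_le_mul h1 h2 (by positivity) (by norm_num)
      _ = 1 / 2 := by norm_num
  obtain ⟨A, hA0, hA⟩ := hXr.bound hρ0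
  have hP : ∀ n t, 0 ≤ t → t ≤ T → (c * q) ^ n * g3 n (X t) ≤ A ^ 3 * (1 / 2) ^ n := by
    intro n t ht htT
    have h1 : g3 n (X t) ≤ (K:ℝ) ^ n * (A * ρ ^ n) ^ 3 := by
      apply gsum_le_const
      intro w hw
      exact pow_le_pow_left₀ (hXr.nonneg t ht htT w) (hw ▸ hA t ht htT w) 3
    calc (c * q) ^ n * g3 n (X t) ≤ (c * q) ^ n * ((K:ℝ) ^ n * (A * ρ ^ n) ^ 3) :=
          mul_le_mul_of_nonneg_left h1 (by positivity)
      _ = A ^ 3 * (K * (c * q) * ρ ^ 3) ^ n := by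
          rw [mul_pow, mul_pow, mul_pow, mul_pow, ← pow_mul, ← pow_mul, mul_comm 3 n]; ring
      _ ≤ A ^ 3 * (1 / 2) ^ n :=
          mul_le_mul_of_nonneg_left (pow_le_pow_left₀ (by positivity) hρ2 n) (by positivity)
  obtain ⟨N, hN⟩ : ∃ N : ℕ, 3 * A ^ 3 * (1 / 2 : ℝ) ^ N ≤ 1 := by
    have h1 : Tendsto (fun N : ℕ => 3 * A ^ 3 * (1 / 2 : ℝ) ^ N) atTop (𝓝 (3 * A ^ 3 * 0)) :=
      (tendsto_pow_atTop_nhds_zero_of_lt_one (by norm_num) (by norm_num)).const_mul _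
    rw [mul_zero] at h1
    exact (h1.eventually_le_const (show (0:ℝ) < 1 by norm_num)).exists
  have hA3 : 0 ≤ A ^ 3 * (1 / 2 : ℝ) ^ N := by positivity
  apply hO' (fun t => Fn c ε N (X t)) (Fn_cont hXr N)
  · -- initial value
    show R0 ≤ Fn c ε N (X 0)
    have hnn := hXr.nonneg 0 le_rfl hT.le
    have h1 : c ^ 0 * (g2 0 (X 0) + ε * gS 0 (X 0)) ≤ Fn c ε N (X 0) := by
      unfold Fn
      exact Finset.single_le_sum (f := fun n => c ^ n * (g2 n (X 0) + ε * gS n (X 0)))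
        (fun n _ => mul_nonneg (by positivity)
          (add_nonneg (g2_nonneg n _) (mul_nonneg hε0.le (gS_nonneg n hnn))))
        (Finset.mem_range.2 (by omega))
    have h2 : g2 0 (X 0) = (R0 + 1) ^ 2 := by
      rw [hX0]; simp [g2, gsum]
    have h3 : 0 ≤ ε * gS 0 (X 0) := mul_nonneg hε0.le (gS_nonneg 0 hnn)
    rw [pow_zero, one_mul, h2] at h1
    nlinarith
  · intro t ht htT
    have hnn := hXr.nonneg t ht.le htT.le
    have p0 := hP N t ht.le htT.le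
    have p1 := hP (N + 1) t ht.le htT.le
    have p2 := hP (N + 2) t ht.le htT.le
    have e1 : A ^ 3 * (1 / 2 : ℝ) ^ (N + 1) ≤ A ^ 3 * (1 / 2) ^ N := by
      apply mul_le_mul_of_nonneg_left _ (by positivity)
      exact pow_le_pow_of_le_one (by norm_num) (by norm_num) (by omega)
    have e2 : A ^ 3 * (1 / 2 : ℝ) ^ (N + 2) ≤ A ^ 3 * (1 / 2) ^ N := by
      apply mul_le_mul_of_nonneg_left _ (by positivity)
      exact pow_le_pow_of_le_one (by norm_num) (by norm_num) (by omega)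
    refine ⟨dFn ν μ q c ε N (X t),
      Gn c q N (X t) + (c * q) ^ (N + 1) * g3 (N + 1) (X t), Fn_deriv hXr N ht htT, ?_, ?_⟩
    · have h1 := dFn_ge hE hX hK hν hμ hq hc1 hε0 hε1 hδ0 hr hr1 hCv N hnn
      rw [hcoef, ← hC2, ← hD] at h1
      have h2 : D * ((c * q) ^ N * g3 N (X t) + (c * q) ^ (N + 1) * g3 (N + 1) (X t)
          + (c * q) ^ (N + 2) * g3 (N + 2) (X t)) ≤ D * 1 :=
        mul_le_mul_of_nonneg_left (by linarith) hD0.le
      have h3 : c1 * ((c * q) ^ (N + 1) * g3 (N + 1) (X t)) ≤ c1 * 1 :=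
        mul_le_mul_of_nonneg_left (by linarith) hc10.le
      linarith
    · intro τ hτ
      have h1 := Fn_le hK hq hc1 hε0 hr2 hr21 N hnn hτ
      rw [← hC3] at h1
      exact h1

end Pool.Agent.W268.Dy
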