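import Mathlib

/-! # Dyadic (tree) model of the Navier-Stokes equations: definitions and statements of the parts

Nodes are words over `Fin K`; `c :: w` is the `c`-th child of `w`, `[]` is the root. -/

namespace Pool.Agent.W268.Dy

open Finset Filter Topology

/-- nodes of the `K`-ary tree -/
abbrev Node (K : ℕ) := List (Fin K)

/-- gain of a node from its parent -/
def gain {K : ℕ} (q : ℝ) (X : Node K → ℝ) : Node K → ℝ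
  | [] => 0
  | _ :: u => q ^ (u.length + 1) * X u ^ 2

/-- right-hand side: dissipation, gain from the parent, loss to the children -/
def rhs {K : ℕ} (ν μ q : ℝ) (X : Node K → ℝ) (w : Node K) : ℝ :=
  -(ν * μ ^ w.length * X w) + gain q X w - q ^ (w.length + 1) * X w * ∑ c : Fin K, X (c :: w)

/-- sum over the nodes of generation `n` -/
def gsum {K : ℕ} : ℕ → (Node K → ℝ) → ℝ
  | 0, f => f []
  | n + 1, f => ∑ c : Fin K, gsum n (fun u => f (c :: u))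

/-- nonnegative, continuous on `[0,∞)`, the equations hold for the nodes of generation `≤ M` -/
structure IsPart {K : ℕ} (ν μ q : ℝ) (M : ℕ) (X : ℝ → Node K → ℝ) : Prop where
  nonneg : ∀ t, 0 ≤ t → ∀ w, 0 ≤ X t w
  cont : ∀ w, ContinuousOn (fun t => X t w) (Set.Ici 0)
  ode : ∀ w, w.length ≤ M → ∀ t, 0 < t → HasDerivAt (fun s => X s w) (rhs ν μ q (X t) w) t

/-- Galerkin solution of level `N` -/
structure IsGal {K : ℕ} (ν μ q : ℝ) (N : ℕ) (X : ℝ → Node K → ℝ) : Prop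
    extends IsPart ν μ q N X where
  zero : ∀ t, 0 ≤ t → ∀ w, N < w.length → X t w = 0

/-- nonnegative solution of finite energy of the infinite system -/
structure IsSol {K : ℕ} (ν μ q : ℝ) (X : ℝ → Node K → ℝ) : Prop where
  nonneg : ∀ t, 0 ≤ t → ∀ w, 0 ≤ X t w
  cont : ∀ w, ContinuousOn (fun t => X t w) (Set.Ici 0)
  ode : ∀ w, ∀ t, 0 < t → HasDerivAt (fun s => X s w) (rhs ν μ q (X t) w) t
  energy : ∃ E : ℝ, ∀ t, 0 ≤ t → ∀ N, ∑ n ∈ range N, gsum n (fun w => X t w ^ 2) ≤ E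

/-- DY-GE: global solutions for bounded Lipschitz vector fields -/
def S_GE : Prop := ∀ (ι : Type) [Fintype ι] (F : (ι → ℝ) → (ι → ℝ)) (L : NNReal) (B : ℝ),
  LipschitzWith L F → (∀ x, ‖F x‖ ≤ B) → ∀ x0 : ι → ℝ,
    ∃ x : ℝ → ι → ℝ, x 0 = x0 ∧ ∀ t, HasDerivAt x (F (x t)) t

/-- DY-GAL: Galerkin solutions exist -/
def S_gal : Prop := ∀ (K : ℕ) (ν μ q : ℝ) (N : ℕ) (u : Node K → ℝ), 0 < ν → 0 < μ → 0 < q →
  (∀ w, 0 ≤ u w) →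
    ∃ X : ℝ → Node K → ℝ, IsGal ν μ q N X ∧ ∀ w, w.length ≤ N → X 0 w = u w

/-- DY-EN: energy inequality up to generation `M` -/
def S_en : Prop := ∀ (K : ℕ) (ν μ q : ℝ) (M : ℕ) (X : ℝ → Node K → ℝ), 0 < ν → 0 < μ → 0 < q →
  IsPart ν μ q M X → ∀ t, 0 ≤ t →
    ∑ n ∈ range (M + 1), gsum n (fun w => X t w ^ 2)
      + 2 * ν * ∫ s in (0:ℝ)..t, ∑ n ∈ range (M + 1), μ ^ n * gsum n (fun w => X s w ^ 2)
    ≤ ∑ n ∈ range (M + 1), gsum n (fun w => X 0 w ^ 2)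

/-- DY-DIF: weighted difference estimate -/
def S_diff : Prop := ∀ (K : ℕ) (ν μ q : ℝ) (M : ℕ) (X Y : ℝ → Node K → ℝ),
  0 < ν → 0 < μ → 0 < q → IsPart ν μ q M X → IsPart ν μ q M Y →
  (∀ w, w.length ≤ M → X 0 w = Y 0 w) → ∀ t, 0 ≤ t →
    ∑ n ∈ range (M + 1), (1 / 2 : ℝ) ^ n * gsum n (fun w => (X t w - Y t w) ^ 2)
    ≤ (1 / 2 : ℝ) ^ M * q ^ (M + 1) * ∫ s in (0:ℝ)..t,
        gsum M (fun w => ∑ c : Fin K, (X s w ^ 2 * Y s (c :: w) + Y s w ^ 2 * X s (c :: w)))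

/-- differential inequality used in the bootstrap, on `[t1,∞)` -/
def Sub {K : ℕ} (ν μ q t1 : ℝ) (X : ℝ → Node K → ℝ) : Prop :=
  (∀ t, t1 ≤ t → ∀ w, 0 ≤ X t w) ∧
  (∀ w, ContinuousOn (fun t => X t w) (Set.Ici t1)) ∧
  (∀ w, ∀ t, t1 < t → ∃ d, HasDerivAt (fun s => X s w) d t ∧
    d ≤ -(ν * μ ^ w.length * X t w) + gain q (X t) w)

/-- DY-BO: parabolic bootstrap with a loss of time -/
def S_boot : Prop := ∀ ν μ q A ρ τ ρ' : ℝ, 0 < ν → 1 < μ → 0 < q → 0 ≤ A → 0 < ρ → q * ρ < μ →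
  0 < τ → 0 < ρ' → ∃ A' : ℝ, ∀ (K : ℕ) (X : ℝ → Node K → ℝ) (t1 : ℝ), Sub ν μ q t1 X →
    (∀ t, t1 ≤ t → ∀ w, X t w ≤ A * ρ ^ w.length) →
    ∀ t, t1 + τ ≤ t → ∀ w, X t w ≤ A' * ρ' ^ w.length

/-- DY-BO0: bootstrap from rapidly decreasing data -/
def S_boot0 : Prop := ∀ (ν μ q A ρ ρ' : ℝ) (B : ℝ → ℝ), 0 < ν → 1 < μ → 0 < q → 0 ≤ A → 0 < ρ →
  q * ρ < μ → 0 < ρ' → ∃ A' : ℝ, ∀ (K : ℕ) (X : ℝ → Node K → ℝ) (t1 : ℝ), Sub ν μ q t1 X →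
    (∀ t, t1 ≤ t → ∀ w, X t w ≤ A * ρ ^ w.length) →
    (∀ ρ1, 0 < ρ1 → ∀ w, X t1 w ≤ B ρ1 * ρ1 ^ w.length) →
    ∀ t, t1 ≤ t → ∀ w, X t w ≤ A' * ρ' ^ w.length

/-- DY-LIM: limit of Galerkin solutions -/
def S_lim : Prop := ∀ (K : ℕ) (ν μ q E : ℝ) (u : Node K → ℝ) (X : ℕ → ℝ → Node K → ℝ),
  0 < ν → 0 < μ → 0 < q → (∀ N, IsGal ν μ q N (X N)) →
  (∀ N w, w.length ≤ N → X N 0 w = u w) →
  (∀ N, ∑ n ∈ range N, gsum n (fun w => u w ^ 2) ≤ E) →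
  (∀ w, ∀ T, 0 < T → ∀ ε, 0 < ε → ∃ N0, ∀ N N', N0 ≤ N → N0 ≤ N' → ∀ t, 0 ≤ t → t ≤ T →
    |X N t w - X N' t w| ≤ ε) →
  ∃ Y : ℝ → Node K → ℝ, IsSol ν μ q Y ∧ (∀ w, Y 0 w = u w) ∧
    ∀ w, ∀ t, 0 ≤ t → Tendsto (fun N => X N t w) atTop (𝓝 (Y t w))

end Pool.Agent.W268.Dy
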