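import Pool.Agent.W268.Dy.Fin1

/-! Assembly, part 2: comparison of two solutions -/

namespace Pool.Agent.W268.Dy

open Finset Filter Topology

variable {K : ℕ} {ν μ q : ℝ}

theorem gsum_le_const (n : ℕ) : ∀ (f : Node K → ℝ) (C : ℝ),
    (∀ w, w.length = n → f w ≤ C) → gsum n f ≤ (K:ℝ) ^ n * C := by
  induction n with
  | zero => intro f C h; simpa [gsum] using h [] rfl
  | succ n ih =>
    intro f C h
    calc gsum (n + 1) f = ∑ c : Fin K, gsum n (fun u => f (c :: u)) := rfl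
      _ ≤ ∑ _c : Fin K, (K:ℝ) ^ n * C :=
          Finset.sum_le_sum fun c _ => ih _ _ fun u hu => h _ (by simp [hu])
      _ = (K:ℝ) ^ (n + 1) * C := by simp [pow_succ]; ring

/-- boundary term -/
def bd (M : ℕ) (X Y : ℝ → Node K → ℝ) (s : ℝ) : ℝ :=
  gsum M (fun w => ∑ c : Fin K, (X s w ^ 2 * Y s (c :: w) + Y s w ^ 2 * X s (c :: w)))

theorem bd_cont {M : ℕ} {X Y : ℝ → Node K → ℝ} (hX : IsPart ν μ q M X) (hY : IsPart ν μ q M Y) :
    ContinuousOn (bd M X Y) (Set.Ici 0) := by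
  unfold bd
  apply Pool.Agent.W64.Dy.gsum_continuousOn M
    (fun s w => ∑ c : Fin K, (X s w ^ 2 * Y s (c :: w) + Y s w ^ 2 * X s (c :: w)))
  intro w
  apply continuousOn_finsetSum
  intro c _
  exact (((hX.cont w).pow 2).mul (hY.cont _)).add (((hY.cont w).pow 2).mul (hX.cont _))

theorem sq_cont {M : ℕ} {X : ℝ → Node K → ℝ} (hX : IsPart ν μ q M X) (n : ℕ) :
    ContinuousOn (fun s => gsum n (fun w => X s w ^ 2)) (Set.Ici 0) :=
  Pool.Agent.W64.Dy.gsum_continuousOn n (fun s w => X s w ^ 2) _ fun w => (hX.cont w).pow 2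

theorem intervalIntegrable_of_cont {f : ℝ → ℝ} (hf : ContinuousOn f (Set.Ici 0)) {t : ℝ}
    (ht : 0 ≤ t) : IntervalIntegrable f MeasureTheory.volume 0 t := by
  apply ContinuousOn.intervalIntegrable
  rw [Set.uIcc_of_le ht]
  exact hf.mono fun s hs => hs.1

/-- pointwise consequence of the weighted difference estimate -/
theorem diff_point {M : ℕ} {X Y : ℝ → Node K → ℝ} (hν : 0 < ν) (hμ : 0 < μ) (hq : 0 < q)
    (hX : IsPart ν μ q M X) (hY : IsPart ν μ q M Y) (h0 : ∀ w, w.length ≤ M → X 0 w = Y 0 w)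
    {t : ℝ} (ht : 0 ≤ t) {w : Node K} (hw : w.length ≤ M) :
    (X t w - Y t w) ^ 2 ≤ 2 ^ w.length * ((1 / 2 : ℝ) ^ M * q ^ (M + 1) *
      ∫ s in (0:ℝ)..t, bd M X Y s) := by
  have h1 := pdiff K ν μ q M X Y hν hμ hq hX hY h0 t ht
  have h2 : (1 / 2 : ℝ) ^ w.length * gsum w.length (fun w => (X t w - Y t w) ^ 2)
      ≤ ∑ n ∈ range (M + 1), (1 / 2 : ℝ) ^ n * gsum n (fun w => (X t w - Y t w) ^ 2) :=
    Finset.single_le_sum (f := fun n => (1 / 2 : ℝ) ^ n * gsum n (fun w => (X t w - Y t w) ^ 2))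
      (fun n _ => mul_nonneg (by positivity)
        (Pool.Agent.W455.DyGal.gsum_nonneg _ _ fun w => sq_nonneg _))
      (Finset.mem_range.2 (by omega))
  have h3 : (X t w - Y t w) ^ 2 ≤ gsum w.length (fun w => (X t w - Y t w) ^ 2) :=
    Pool.Agent.W455.DyGal.le_gsum w (fun w => (X t w - Y t w) ^ 2) fun w => sq_nonneg _
  have h4 : (1 / 2 : ℝ) ^ w.length * (X t w - Y t w) ^ 2 ≤
      (1 / 2 : ℝ) ^ M * q ^ (M + 1) * ∫ s in (0:ℝ)..t, bd M X Y s :=
    (mul_le_mul_of_nonneg_left h3 (by positivity)).trans (h2.trans h1)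
  have h5 := mul_le_mul_of_nonneg_left h4 (show (0:ℝ) ≤ 2 ^ w.length by positivity)
  rw [← mul_assoc, ← mul_pow] at h5
  norm_num at h5 ⊢
  exact h5

/-- comparison when one solution decays fast -/
theorem comp_fast {M : ℕ} {X Y : ℝ → Node K → ℝ} (hK : 0 < K) (hν : 0 < ν) (hμ : 0 < μ)
    (hq : 0 < q)
    (hX : IsPart ν μ q M X) (hY : IsPart ν μ q M Y) (h0 : ∀ w, w.length ≤ M → X 0 w = Y 0 w)
    {t A F ρ : ℝ} (ht : 0 ≤ t) (hA : 0 ≤ A) (hF : 0 ≤ F) (hρ : 0 < ρ) (hρ1 : ρ ≤ 1)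
    (hρ2 : K * q * ρ ≤ 1)
    (hXb : ∀ s, 0 ≤ s → ∀ w, X s w ≤ A * ρ ^ w.length) (hYb : ∀ s, 0 ≤ s → ∀ w, Y s w ≤ F)
    {w : Node K} (hw : w.length ≤ M) :
    (X t w - Y t w) ^ 2 ≤ 2 ^ w.length * ((1 / 2 : ℝ) ^ M * (q * K * t * (A ^ 2 * F + F ^ 2 * A))) := by
  have h1 := diff_point hν hμ hq hX hY h0 ht hw
  refine h1.trans (mul_le_mul_of_nonneg_left ?_ (by positivity))
  have hK' : (0:ℝ) < K := by exact_mod_cast hK
  have h2 : ∀ s, 0 ≤ s → bd M X Y s ≤ (K:ℝ) ^ M * (K * ((A ^ 2 * F + F ^ 2 * A) * ρ ^ M)) := by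
    intro s hs
    apply gsum_le_const
    intro w hw
    have hXw : X s w ≤ A * ρ ^ M := hw ▸ hXb s hs w
    have hρM : ρ ^ M ≤ 1 := pow_le_one₀ hρ.le hρ1
    have hρM0 : 0 ≤ ρ ^ M := by positivity
    calc ∑ c : Fin K, (X s w ^ 2 * Y s (c :: w) + Y s w ^ 2 * X s (c :: w))
        ≤ ∑ _c : Fin K, (A ^ 2 * F + F ^ 2 * A) * ρ ^ M := by
          apply Finset.sum_le_sum
          intro c _
          have a1 : X s (c :: w) ≤ A * ρ ^ M := by
            refine (hXb s hs _).trans (mul_le_mul_of_nonneg_left ?_ hA)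
            rw [List.length_cons, hw]
            exact pow_le_pow_of_le_one hρ.le hρ1 (by omega)
          have a2 : X s w ^ 2 ≤ A ^ 2 * ρ ^ M := by
            calc X s w ^ 2 ≤ (A * ρ ^ M) ^ 2 := pow_le_pow_left₀ (hX.nonneg s hs w) hXw 2
              _ = A ^ 2 * (ρ ^ M * ρ ^ M) := by ring
              _ ≤ A ^ 2 * (ρ ^ M * 1) := by
                  apply mul_le_mul_of_nonneg_left _ (by positivity)
                  exact mul_le_mul_of_nonneg_left hρM hρM0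
              _ = A ^ 2 * ρ ^ M := by ring
          have a3 : Y s w ^ 2 ≤ F ^ 2 := pow_le_pow_left₀ (hY.nonneg s hs w) (hYb s hs w) 2
          have a4 : X s w ^ 2 * Y s (c :: w) ≤ A ^ 2 * ρ ^ M * F :=
            mul_le_mul a2 (hYb s hs _) (hY.nonneg s hs _) (by positivity)
          have a5 : Y s w ^ 2 * X s (c :: w) ≤ F ^ 2 * (A * ρ ^ M) :=
            mul_le_mul a3 a1 (hX.nonneg s hs _) (by positivity)
          linarith
      _ = K * ((A ^ 2 * F + F ^ 2 * A) * ρ ^ M) := by simp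
  have h3 : ∫ s in (0:ℝ)..t, bd M X Y s ≤
      t * ((K:ℝ) ^ M * (K * ((A ^ 2 * F + F ^ 2 * A) * ρ ^ M))) := by
    calc ∫ s in (0:ℝ)..t, bd M X Y s
        ≤ ∫ _s in (0:ℝ)..t, ((K:ℝ) ^ M * (K * ((A ^ 2 * F + F ^ 2 * A) * ρ ^ M))) := by
          apply intervalIntegral.integral_mono_on ht
            (intervalIntegrable_of_cont (bd_cont hX hY) ht) intervalIntegrable_const
          intro s hs
          exact h2 s hs.1
      _ = _ := by simp; ring
  have h4 : (K * q * ρ) ^ M ≤ 1 := pow_le_one₀ (by positivity) hρ2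
  calc (1 / 2 : ℝ) ^ M * q ^ (M + 1) * ∫ s in (0:ℝ)..t, bd M X Y s
      ≤ (1 / 2 : ℝ) ^ M * q ^ (M + 1) * (t * ((K:ℝ) ^ M * (K * ((A ^ 2 * F + F ^ 2 * A) * ρ ^ M)))) :=
        mul_le_mul_of_nonneg_left h3 (by positivity)
    _ = (1 / 2 : ℝ) ^ M * (q * K * t * (A ^ 2 * F + F ^ 2 * A)) * (K * q * ρ) ^ M := by
        rw [mul_pow, mul_pow]; ring
    _ ≤ (1 / 2 : ℝ) ^ M * (q * K * t * (A ^ 2 * F + F ^ 2 * A)) * 1 :=
        mul_le_mul_of_nonneg_left h4 (by positivity)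
    _ = _ := by ring

/-- energy bounds -/
theorem energy_bound {M : ℕ} {X : ℝ → Node K → ℝ} (hν : 0 < ν) (hμ : 0 < μ) (hq : 0 < q)
    (hX : IsPart ν μ q M X) {E : ℝ} (hE : ∑ n ∈ range (M + 1), gsum n (fun w => X 0 w ^ 2) ≤ E)
    {t : ℝ} (ht : 0 ≤ t) :
    (∀ w, w.length ≤ M → X t w ≤ E + 1) ∧
      ∫ s in (0:ℝ)..t, ∑ n ∈ range (M + 1), μ ^ n * gsum n (fun w => X s w ^ 2) ≤ E / (2 * ν) := by
  have h1 := pen K ν μ q M X hν hμ hq hX t ht
  have hnn : ∀ s, ∀ n, 0 ≤ gsum n (fun w => X s w ^ 2) := fun s n =>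
    Pool.Agent.W455.DyGal.gsum_nonneg _ _ fun w => sq_nonneg _
  have h2 : 0 ≤ ∫ s in (0:ℝ)..t, ∑ n ∈ range (M + 1), μ ^ n * gsum n (fun w => X s w ^ 2) := by
    apply intervalIntegral.integral_nonneg ht
    intro s _
    exact Finset.sum_nonneg fun n _ => mul_nonneg (by positivity) (hnn s n)
  have h3 : 0 ≤ ∑ n ∈ range (M + 1), gsum n (fun w => X t w ^ 2) :=
    Finset.sum_nonneg fun n _ => hnn t n
  constructor
  · intro w hw
    have h4 : gsum w.length (fun w => X t w ^ 2)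
        ≤ ∑ n ∈ range (M + 1), gsum n (fun w => X t w ^ 2) :=
      Finset.single_le_sum (f := fun n => gsum n (fun w => X t w ^ 2)) (fun n _ => hnn t n)
        (Finset.mem_range.2 (by omega))
    have h5 : X t w ^ 2 ≤ gsum w.length (fun w => X t w ^ 2) :=
      Pool.Agent.W455.DyGal.le_gsum w (fun w => X t w ^ 2) fun w => sq_nonneg _
    have h6 : 0 ≤ 2 * ν * ∫ s in (0:ℝ)..t, ∑ n ∈ range (M + 1), μ ^ n * gsum n (fun w => X s w ^ 2) :=
      mul_nonneg (by positivity) h2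
    have h7 : X t w ^ 2 ≤ E := by linarith
    have h8 : 0 ≤ E := (sq_nonneg _).trans h7
    nlinarith [hX.nonneg t ht w]
  · rw [le_div_iff₀ (by positivity)]
    linarith

/-- comparison in the energy class -/
theorem comp_energy {M : ℕ} {X Y : ℝ → Node K → ℝ} (hν : 0 < ν) (hμ : 0 < μ)
    (hq : 0 < q)
    (hX : IsPart ν μ q M X) (hY : IsPart ν μ q M Y) (h0 : ∀ w, w.length ≤ M → X 0 w = Y 0 w)
    {t E F : ℝ} (ht : 0 ≤ t) (hF : 0 ≤ F)
    (hE : ∑ n ∈ range (M + 1), gsum n (fun w => X 0 w ^ 2) ≤ E)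
    (hXb : ∀ s, 0 ≤ s → ∀ w, X s w ≤ F) (hYb : ∀ s, 0 ≤ s → ∀ w, Y s w ≤ F)
    {w : Node K} (hw : w.length ≤ M) :
    (X t w - Y t w) ^ 2 ≤ 2 ^ w.length * ((q / (2 * μ)) ^ M * (q * K * F * E / ν)) := by
  have h1 := diff_point hν hμ hq hX hY h0 ht hw
  refine h1.trans (mul_le_mul_of_nonneg_left ?_ (by positivity))
  have hnn : ∀ (Z : ℝ → Node K → ℝ) s, ∀ n, 0 ≤ gsum n (fun w => Z s w ^ 2) := fun Z s n =>
    Pool.Agent.W455.DyGal.gsum_nonneg _ _ fun w => sq_nonneg _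
  have h2 : ∀ s, 0 ≤ s → bd M X Y s ≤
      K * F * (gsum M (fun w => X s w ^ 2) + gsum M (fun w => Y s w ^ 2)) := by
    intro s hs
    rw [← Pool.Agent.W64.Dy.gsum_add, ← Pool.Agent.W64.Dy.gsum_mul]
    apply Pool.Agent.W578.Dy.Dif.gsum_le
    intro w _
    calc ∑ c : Fin K, (X s w ^ 2 * Y s (c :: w) + Y s w ^ 2 * X s (c :: w))
        ≤ ∑ _c : Fin K, (X s w ^ 2 * F + Y s w ^ 2 * F) := by
          apply Finset.sum_le_sum
          intro c _
          exact add_le_add (mul_le_mul_of_nonneg_left (hYb s hs _) (sq_nonneg _))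
            (mul_le_mul_of_nonneg_left (hXb s hs _) (sq_nonneg _))
      _ = K * F * (X s w ^ 2 + Y s w ^ 2) := by simp; ring
  have h3 : ∀ Z : ℝ → Node K → ℝ, IsPart ν μ q M Z → (∀ w, w.length ≤ M → X 0 w = Z 0 w) →
      ∫ s in (0:ℝ)..t, gsum M (fun w => Z s w ^ 2) ≤ E / (2 * ν) / μ ^ M := by
    intro Z hZ hZ0
    have hEZ : ∑ n ∈ range (M + 1), gsum n (fun w => Z 0 w ^ 2) ≤ E := by
      refine le_trans (le_of_eq ?_) hE
      apply Finset.sum_congr rfl
      intro n hn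
      apply Pool.Agent.W455.DyGal.gsum_congr
      intro w hw
      rw [hZ0 w (by rw [hw]; have := Finset.mem_range.1 hn; omega)]
    have h4 := (energy_bound hν hμ hq hZ hEZ ht).2
    rw [le_div_iff₀ (by positivity)]
    refine le_trans ?_ h4
    rw [mul_comm, ← intervalIntegral.integral_const_mul]
    have hc : ContinuousOn (fun s => ∑ n ∈ range (M + 1), μ ^ n * gsum n (fun w => Z s w ^ 2))
        (Set.Ici 0) :=
      continuousOn_finsetSum _ fun n _ => continuousOn_const.mul (sq_cont hZ n)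
    apply intervalIntegral.integral_mono_on ht
      (intervalIntegrable_of_cont (continuousOn_const.mul (sq_cont hZ M)) ht)
      (intervalIntegrable_of_cont hc ht)
    intro s _
    exact Finset.single_le_sum (f := fun n => μ ^ n * gsum n (fun w => Z s w ^ 2))
      (fun n _ => mul_nonneg (by positivity) (hnn Z s n)) (Finset.mem_range.2 (by omega))
  have h5 : ∫ s in (0:ℝ)..t, bd M X Y s ≤ K * F * (E / (2 * ν) / μ ^ M + E / (2 * ν) / μ ^ M) := by
    calc ∫ s in (0:ℝ)..t, bd M X Y s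
        ≤ ∫ s in (0:ℝ)..t, K * F * (gsum M (fun w => X s w ^ 2) + gsum M (fun w => Y s w ^ 2)) := by
          apply intervalIntegral.integral_mono_on ht
            (intervalIntegrable_of_cont (bd_cont hX hY) ht)
            (intervalIntegrable_of_cont
              (continuousOn_const.mul ((sq_cont hX M).add (sq_cont hY M))) ht)
          intro s hs
          exact h2 s hs.1
      _ = K * F * (∫ s in (0:ℝ)..t, gsum M (fun w => X s w ^ 2)) +
          K * F * (∫ s in (0:ℝ)..t, gsum M (fun w => Y s w ^ 2)) := by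
          rw [intervalIntegral.integral_const_mul, intervalIntegral.integral_add
            (intervalIntegrable_of_cont (sq_cont hX M) ht)
            (intervalIntegrable_of_cont (sq_cont hY M) ht)]
          ring
      _ ≤ _ := by
          have := mul_le_mul_of_nonneg_left (h3 X hX fun _ _ => rfl)
            (show 0 ≤ (K:ℝ) * F by positivity)
          have := mul_le_mul_of_nonneg_left (h3 Y hY h0) (show 0 ≤ (K:ℝ) * F by positivity)
          linarith
  calc (1 / 2 : ℝ) ^ M * q ^ (M + 1) * ∫ s in (0:ℝ)..t, bd M X Y s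
      ≤ (1 / 2 : ℝ) ^ M * q ^ (M + 1) * (K * F * (E / (2 * ν) / μ ^ M + E / (2 * ν) / μ ^ M)) :=
        mul_le_mul_of_nonneg_left h5 (by positivity)
    _ = _ := by
        rw [div_pow, div_pow, mul_pow, one_pow]
        field_simp
        ring

end Pool.Agent.W268.Dy
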