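import Pool.Agent.W268.Dy.StmB
import Pool.Agent.W268.Dy.Fin2

/-! Blow-up, part A: the differential inequality for the weighted functional -/

namespace Pool.Agent.W268.Dy

open Finset

variable {K : ℕ}

/-- cross sum of generations `n` and `n + 1` -/
def gS (n : ℕ) (x : Node K → ℝ) : ℝ := gsum n (fun w => x w * ch x w)

theorem g2_nonneg (n : ℕ) (x : Node K → ℝ) : 0 ≤ g2 n x :=
  Pool.Agent.W455.DyGal.gsum_nonneg _ _ fun _ => sq_nonneg _

theorem ch_nonneg {x : Node K → ℝ} (hx : ∀ w, 0 ≤ x w) (w : Node K) : 0 ≤ ch x w :=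
  Finset.sum_nonneg fun c _ => hx _

theorem g3_nonneg (n : ℕ) {x : Node K → ℝ} (hx : ∀ w, 0 ≤ x w) : 0 ≤ g3 n x :=
  Pool.Agent.W455.DyGal.gsum_nonneg _ _ fun w => pow_nonneg (hx w) 3

theorem gT_nonneg (n : ℕ) {x : Node K → ℝ} (hx : ∀ w, 0 ≤ x w) : 0 ≤ gT n x :=
  Pool.Agent.W455.DyGal.gsum_nonneg _ _ fun w => mul_nonneg (sq_nonneg _) (ch_nonneg hx w)

theorem gsum_const (n : ℕ) (C : ℝ) : gsum n (fun _ : Node K => C) = (K:ℝ) ^ n * C := by
  induction n with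
  | zero => simp [gsum]
  | succ n ih =>
    calc gsum (n + 1) (fun _ : Node K => C) = ∑ _c : Fin K, gsum n (fun _ : Node K => C) := rfl
      _ = (K:ℝ) ^ (n + 1) * C := by rw [ih]; simp [pow_succ]; ring

theorem gsum_ch (n : ℕ) (f : Node K → ℝ) : gsum n (ch f) = gsum (n + 1) f := by
  unfold ch
  rw [Pool.Agent.W578.Dy.Dif.gsum_sum]
  rfl

theorem young_node {α β x : ℝ} (hα : 0 < α) (hβ : 0 < β) (hx : 0 ≤ x) :
    α * x ^ 2 ≤ β * x ^ 3 + α ^ 3 / β ^ 2 := by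
  rcases le_total (β * x) α with h | h
  · have h1 : α * x ^ 2 ≤ α ^ 3 / β ^ 2 := by
      rw [le_div_iff₀ (by positivity)]
      have : (β * x) ^ 2 ≤ α ^ 2 := pow_le_pow_left₀ (by positivity) h 2
      nlinarith
    have : 0 ≤ β * x ^ 3 := by positivity
    linarith
  · have h1 : α * x ^ 2 ≤ β * x ^ 3 := by
      have := mul_le_mul_of_nonneg_right h (sq_nonneg x)
      nlinarith
    have : 0 ≤ α ^ 3 / β ^ 2 := by positivity
    linarith

theorem young_gen (n : ℕ) {α β : ℝ} (hα : 0 < α) (hβ : 0 < β) {x : Node K → ℝ}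
    (hx : ∀ w, 0 ≤ x w) : α * g2 n x ≤ β * g3 n x + (K:ℝ) ^ n * (α ^ 3 / β ^ 2) := by
  unfold g2 g3
  rw [← Pool.Agent.W578.Dy.Dif.gsum_mul, ← Pool.Agent.W578.Dy.Dif.gsum_mul, ← gsum_const,
    ← Pool.Agent.W578.Dy.Dif.gsum_add]
  exact Pool.Agent.W578.Dy.Dif.gsum_le fun w _ => young_node hα hβ (hx w)

theorem gS_le (n : ℕ) (x : Node K → ℝ) : gS n x ≤ K / 2 * g2 n x + 1 / 2 * g2 (n + 1) x := by
  unfold gS g2
  rw [← gsum_ch, ← Pool.Agent.W578.Dy.Dif.gsum_mul, ← Pool.Agent.W578.Dy.Dif.gsum_mul,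
    ← Pool.Agent.W578.Dy.Dif.gsum_add]
  refine Pool.Agent.W578.Dy.Dif.gsum_le fun w _ => ?_
  unfold ch
  rw [Finset.mul_sum, Finset.mul_sum]
  calc ∑ c : Fin K, x w * x (c :: w) ≤ ∑ c : Fin K, (1 / 2 * x w ^ 2 + 1 / 2 * x (c :: w) ^ 2) := by
        apply Finset.sum_le_sum
        intro c _
        nlinarith [sq_nonneg (x w - x (c :: w))]
    _ = K / 2 * x w ^ 2 + ∑ c : Fin K, 1 / 2 * x (c :: w) ^ 2 := by
        rw [Finset.sum_add_distrib]; simp; ring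

theorem gT_le (n : ℕ) {x : Node K → ℝ} (hx : ∀ w, 0 ≤ x w) :
    gT n x ≤ K * g3 n x + g3 (n + 1) x := by
  unfold gT g3
  rw [← gsum_ch, ← Pool.Agent.W578.Dy.Dif.gsum_mul, ← Pool.Agent.W578.Dy.Dif.gsum_add]
  refine Pool.Agent.W578.Dy.Dif.gsum_le fun w _ => ?_
  unfold ch
  rw [Finset.mul_sum]
  calc ∑ c : Fin K, x w ^ 2 * x (c :: w) ≤ ∑ c : Fin K, (x w ^ 3 + x (c :: w) ^ 3) := by
        apply Finset.sum_le_sum
        intro c _
        have h1 := hx w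
        have h2 := hx (c :: w)
        rcases le_total (x w) (x (c :: w)) with h | h
        · have := mul_le_mul_of_nonneg_right (pow_le_pow_left₀ h1 h 2) h2
          have := pow_nonneg h1 3
          nlinarith
        · have := mul_le_mul_of_nonneg_left h (sq_nonneg (x w))
          have := pow_nonneg h2 3
          nlinarith
    _ = K * x w ^ 3 + ∑ c : Fin K, x (c :: w) ^ 3 := by
        rw [Finset.sum_add_distrib]; simp

theorem sum_shift {f : ℕ → ℝ} (h0 : 0 ≤ f 0) (N : ℕ) :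
    ∑ n ∈ range (N + 1), f (n + 1) ≤ ∑ n ∈ range (N + 1), f n + f (N + 1) := by
  have h := Finset.sum_range_succ' f (N + 1)
  have h2 := Finset.sum_range_succ f (N + 1)
  linarith

/-- the functional -/
def Fn (c ε : ℝ) (N : ℕ) (x : Node K → ℝ) : ℝ :=
  ∑ n ∈ range (N + 1), c ^ n * (g2 n x + ε * gS n x)

/-- its derivative -/
def dFn (ν μ q c ε : ℝ) (N : ℕ) (x : Node K → ℝ) : ℝ :=
  ∑ n ∈ range (N + 1), c ^ n * (dE ν μ q n x + ε * dX ν μ q n x)

/-- dissipation-type sum -/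
def Gn (c q : ℝ) (N : ℕ) (x : Node K → ℝ) : ℝ := ∑ n ∈ range (N + 1), (c * q) ^ n * g3 n x

theorem geo_le {r : ℝ} (h0 : 0 ≤ r) (h1 : r < 1) (N : ℕ) :
    ∑ n ∈ range N, r ^ n ≤ 1 / (1 - r) := by
  have h2 : 0 < 1 - r := by linarith
  have h3 := mul_neg_geom_sum r N
  rw [le_div_iff₀ h2]
  have := pow_nonneg h0 N
  linarith

/-- lower bound for the derivative of the functional -/
theorem dFn_ge (hE : S_bE) (hX : S_bX) (hK : 0 < K) {ν μ q c ε : ℝ} (hν : 0 < ν) (hμ : 1 < μ)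
    (hq : 0 < q) (hc : 1 < c) (hε : 0 < ε)
    (hε1 : ε * (K / c + q ^ 2 / 2 + K / (4 * c ^ 3)) ≤ 2 * (c - 1) * q)
    {δ r Cv : ℝ} (hδ : 0 < δ) (hr : r = c * K * μ ^ 3 / q ^ 2) (hr1 : r < 1)
    (hCv : Cv = 2 * ν + ε * ν * (1 + μ) * (K / 2 + 1 / (2 * c * μ)))
    (N : ℕ) {x : Node K → ℝ} (hx : ∀ w, 0 ≤ x w) :
    (ε * K * q / 2 - Cv * δ) * Gn c q N x - Cv * (1 / δ ^ 2 * (1 / (1 - r)))
      - (ε * K * q + Cv * δ + (2 * c * q) * (K + 1 / (c * q)) + ε * K / (4 * c ^ 3) * (K + 1 / (c * q)))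
        * ((c * q) ^ N * g3 N x + (c * q) ^ (N + 1) * g3 (N + 1) x + (c * q) ^ (N + 2) * g3 (N + 2) x)
      ≤ dFn ν μ q c ε N x := by
  have hK' : (0:ℝ) < K := by exact_mod_cast hK
  have hc0 : 0 < c := by linarith
  have hμ0 : 0 < μ := by linarith
  have hcq : 0 < c * q := by positivity
  have hcμ : 0 < c * μ := by positivity
  obtain ⟨P, hP⟩ : ∃ P : ℕ → ℝ, P = fun n => (c * q) ^ n * g3 n x := ⟨_, rfl⟩
  obtain ⟨Q, hQ⟩ : ∃ Q : ℕ → ℝ, Q = fun n => (c * q) ^ n * gT n x := ⟨_, rfl⟩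
  obtain ⟨V, hV⟩ : ∃ V : ℕ → ℝ, V = fun n => (c * μ) ^ n * g2 n x := ⟨_, rfl⟩
  have hP0 : ∀ n, 0 ≤ P n := fun n => by
    rw [hP]; exact mul_nonneg (by positivity) (g3_nonneg n hx)
  have hQ0 : ∀ n, 0 ≤ Q n := fun n => by
    rw [hQ]; exact mul_nonneg (by positivity) (gT_nonneg n hx)
  have hV0 : ∀ n, 0 ≤ V n := fun n => by
    rw [hV]; exact mul_nonneg (by positivity) (g2_nonneg n x)
  obtain ⟨SP, hSP⟩ : ∃ SP, SP = ∑ n ∈ range (N + 1), P n := ⟨_, rfl⟩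
  obtain ⟨SQ, hSQ⟩ : ∃ SQ, SQ = ∑ n ∈ range (N + 1), Q n := ⟨_, rfl⟩
  obtain ⟨SV, hSV⟩ : ∃ SV, SV = ∑ n ∈ range (N + 1), V n := ⟨_, rfl⟩
  have hSP0 : 0 ≤ SP := by rw [hSP]; exact Finset.sum_nonneg fun n _ => hP0 n
  have hSV0 : 0 ≤ SV := by rw [hSV]; exact Finset.sum_nonneg fun n _ => hV0 n
  have hSQ0 : 0 ≤ SQ := by rw [hSQ]; exact Finset.sum_nonneg fun n _ => hQ0 n
  have hG : Gn c q N x = SP := by rw [hSP, hP]; rfl
  -- the energy part
  have e1 : ∑ n ∈ range (N + 1), c ^ n * dE ν μ q n x =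
      -(2 * ν * SV) + 2 * (c - 1) * q * (SQ - Q N) - 2 * q * Q N := by
    rw [hE]
    have a1 : ∑ n ∈ range (N + 1), (c * μ) ^ n * g2 n x = SV := by rw [hSV, hV]
    have a2 : ∑ n ∈ range N, c ^ n * q ^ (n + 1) * gT n x = q * (SQ - Q N) := by
      rw [hSQ, Finset.sum_range_succ, add_sub_cancel_right, Finset.mul_sum]
      apply Finset.sum_congr rfl
      intro n _
      rw [hQ]; simp only [mul_pow]; ring
    rw [a1, a2, hQ]
    simp only [mul_pow]
    ring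
  -- the cross part
  obtain ⟨b, hb⟩ : ∃ b : ℝ, b = 2 * K / (c * q) := ⟨_, rfl⟩
  obtain ⟨b'', hb''⟩ : ∃ b'' : ℝ, b'' = K / (c ^ 2 * q) := ⟨_, rfl⟩
  have hb0 : 0 < b := by rw [hb]; positivity
  have hb''0 : 0 < b'' := by rw [hb'']; positivity
  have e2 : ∀ n, K * q * P n - ν * (1 + μ) * (K / 2 * V n + 1 / (2 * c * μ) * V (n + 1))
      - K / c * Q n - K * q / 4 * P (n + 1) - q ^ 2 / 2 * Q n - K / (4 * c ^ 3) * Q (n + 1)
      - K * q / 4 * P (n + 2) ≤ c ^ n * dX ν μ q n x := by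
    intro n
    have h1 := hX K ν μ q b 1 b'' n x hν.le hμ0 hq hb0 one_pos hb''0 hx
    have h2 := mul_le_mul_of_nonneg_left h1 (show 0 ≤ c ^ n by positivity)
    refine le_trans (le_of_eq ?_) h2
    rw [hP, hQ, hV, hb, hb'']
    simp only [mul_pow]
    field_simp
    ring
  have e3 : ∑ n ∈ range (N + 1), c ^ n * dX ν μ q n x ≥
      K * q * SP - ν * (1 + μ) * (K / 2 * SV + 1 / (2 * c * μ) * (SV + V (N + 1)))
      - K / c * SQ - K * q / 4 * (SP + P (N + 1)) - q ^ 2 / 2 * SQ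
      - K / (4 * c ^ 3) * (SQ + Q (N + 1)) - K * q / 4 * (SP + P (N + 1) + P (N + 2)) := by
    have s1 : ∑ n ∈ range (N + 1), P (n + 1) ≤ SP + P (N + 1) := by
      rw [hSP]; exact sum_shift (hP0 0) N
    have s2 : ∑ n ∈ range (N + 1), P (n + 2) ≤ SP + P (N + 1) + P (N + 2) := by
      have h1 := sum_shift (f := fun n => P (n + 1)) (hP0 1) N
      linarith
    have s3 : ∑ n ∈ range (N + 1), Q (n + 1) ≤ SQ + Q (N + 1) := by
      rw [hSQ]; exact sum_shift (hQ0 0) N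
    have s4 : ∑ n ∈ range (N + 1), V (n + 1) ≤ SV + V (N + 1) := by
      rw [hSV]; exact sum_shift (hV0 0) N
    have h := Finset.sum_le_sum fun n (_ : n ∈ range (N + 1)) => e2 n
    simp only [Finset.sum_sub_distrib, ← Finset.mul_sum, Finset.sum_add_distrib, ← hSP, ← hSQ,
      ← hSV] at h
    have t1 : K * q / 4 * ∑ n ∈ range (N + 1), P (n + 1) ≤ K * q / 4 * (SP + P (N + 1)) :=
      mul_le_mul_of_nonneg_left s1 (by positivity)
    have t2 : K * q / 4 * ∑ n ∈ range (N + 1), P (n + 2) ≤ K * q / 4 * (SP + P (N + 1) + P (N + 2)) :=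
      mul_le_mul_of_nonneg_left s2 (by positivity)
    have t3 : K / (4 * c ^ 3) * ∑ n ∈ range (N + 1), Q (n + 1) ≤ K / (4 * c ^ 3) * (SQ + Q (N + 1)) :=
      mul_le_mul_of_nonneg_left s3 (by positivity)
    have t4 : ν * (1 + μ) * (1 / (2 * c * μ) * ∑ n ∈ range (N + 1), V (n + 1)) ≤
        ν * (1 + μ) * (1 / (2 * c * μ) * (SV + V (N + 1))) :=
      mul_le_mul_of_nonneg_left (mul_le_mul_of_nonneg_left s4 (by positivity)) (by positivity)
    linarith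
  -- viscosity
  have v1 : ∀ n, V n ≤ δ * P n + 1 / δ ^ 2 * r ^ n := by
    intro n
    have h1 := young_gen (K := K) n (show 0 < (c * μ) ^ n by positivity)
      (show 0 < δ * (c * q) ^ n by positivity) hx
    rw [hV, hP]
    refine h1.trans (le_of_eq ?_)
    rw [hr]
    simp only [mul_pow, div_pow]
    field_simp
    ring
  have hr0 : 0 ≤ r := by rw [hr]; positivity
  have v2 : SV + V (N + 1) ≤ δ * (SP + P (N + 1)) + 1 / δ ^ 2 * (1 / (1 - r)) := by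
    have h1 : SV + V (N + 1) = ∑ n ∈ range (N + 2), V n := by
      rw [hSV, Finset.sum_range_succ _ (N + 1)]
    have h2 : SP + P (N + 1) = ∑ n ∈ range (N + 2), P n := by
      rw [hSP, Finset.sum_range_succ _ (N + 1)]
    rw [h1, h2, Finset.mul_sum]
    calc ∑ n ∈ range (N + 2), V n ≤ ∑ n ∈ range (N + 2), (δ * P n + 1 / δ ^ 2 * r ^ n) :=
          Finset.sum_le_sum fun n _ => v1 n
      _ = ∑ n ∈ range (N + 2), δ * P n + 1 / δ ^ 2 * ∑ n ∈ range (N + 2), r ^ n := by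
          rw [Finset.sum_add_distrib, Finset.mul_sum]
      _ ≤ _ := by
          have := mul_le_mul_of_nonneg_left (geo_le hr0 hr1 (N + 2))
            (show 0 ≤ 1 / δ ^ 2 by positivity)
          linarith
  have hCv0 : 0 < Cv := by rw [hCv]; positivity
  have v3 : 2 * ν * SV + ε * (ν * (1 + μ) * (K / 2 * SV + 1 / (2 * c * μ) * (SV + V (N + 1))))
      ≤ Cv * (SV + V (N + 1)) := by
    rw [hCv]
    have h1 := hV0 (N + 1)
    have h2 : 0 ≤ 2 * ν * V (N + 1) := by positivity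
    have h3 : 0 ≤ ε * ν * (1 + μ) * (K / 2) * V (N + 1) := by positivity
    nlinarith
  have v4 := mul_le_mul_of_nonneg_left v2 hCv0.le
  -- transfer terms
  have q1 : ∀ n, Q n ≤ (K + 1 / (c * q)) * (P n + P (n + 1)) := by
    intro n
    have h1 := mul_le_mul_of_nonneg_left (gT_le n hx) (show 0 ≤ (c * q) ^ n by positivity)
    have h2 : (c * q) ^ n * (K * g3 n x + g3 (n + 1) x) = K * P n + 1 / (c * q) * P (n + 1) := by
      rw [hP]; simp only [pow_succ]; field_simp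
    have h3 : 0 ≤ K * P (n + 1) := mul_nonneg hK'.le (hP0 _)
    have h4 : 0 ≤ 1 / (c * q) * P n := mul_nonneg (by positivity) (hP0 _)
    have h5 : Q n = (c * q) ^ n * gT n x := by rw [hQ]
    rw [h5]
    linarith
  have h := Finset.sum_add_distrib (s := range (N + 1)) (f := fun n => c ^ n * dE ν μ q n x)
    (g := fun n => ε * (c ^ n * dX ν μ q n x))
  have hdF : dFn ν μ q c ε N x = ∑ n ∈ range (N + 1), c ^ n * dE ν μ q n x
      + ε * ∑ n ∈ range (N + 1), c ^ n * dX ν μ q n x := by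
    unfold dFn
    rw [Finset.mul_sum, ← Finset.sum_add_distrib]
    apply Finset.sum_congr rfl
    intro n _
    ring
  have e3' := mul_le_mul_of_nonneg_left e3 hε.le
  have k1 := mul_le_mul_of_nonneg_right hε1 hSQ0
  have q2 : 2 * c * q * Q N ≤ 2 * c * q * ((K + 1 / (c * q)) * (P N + P (N + 1))) :=
    mul_le_mul_of_nonneg_left (q1 N) (by positivity)
  have q3 : ε * (K / (4 * c ^ 3) * Q (N + 1)) ≤
      ε * (K / (4 * c ^ 3) * ((K + 1 / (c * q)) * (P (N + 1) + P (N + 2)))) :=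
    mul_le_mul_of_nonneg_left (mul_le_mul_of_nonneg_left (q1 (N + 1)) (by positivity)) hε.le
  have hPN : (c * q) ^ N * g3 N x + (c * q) ^ (N + 1) * g3 (N + 1) x
      + (c * q) ^ (N + 2) * g3 (N + 2) x = P N + P (N + 1) + P (N + 2) := by rw [hP]
  rw [hPN, hG, hdF, e1]
  have p0 := hP0 N
  have p1 := hP0 (N + 1)
  have p2 := hP0 (N + 2)
  have z1 : 0 ≤ 2 * c * q * (K + 1 / (c * q)) * P (N + 2) := by positivity
  have z2 : 0 ≤ ε * K / (4 * c ^ 3) * (K + 1 / (c * q)) * P N := by positivity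
  have z3 : 0 ≤ ε * K * q * P N := by positivity
  have z4 : 0 ≤ ε * K * q * P (N + 1) := by positivity
  have z5 : 0 ≤ ε * K * q * P (N + 2) := by positivity
  have z6 : 0 ≤ Cv * δ * P N := by positivity
  have z7 : 0 ≤ Cv * δ * P (N + 2) := by positivity
  have w2 : 2 * c * q * ((K + 1 / (c * q)) * (P N + P (N + 1))) =
      2 * c * q * (K + 1 / (c * q)) * P N + 2 * c * q * (K + 1 / (c * q)) * P (N + 1) := by ring
  have w3 : ε * (K / (4 * c ^ 3) * ((K + 1 / (c * q)) * (P (N + 1) + P (N + 2)))) =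
      ε * K / (4 * c ^ 3) * (K + 1 / (c * q)) * P (N + 1)
        + ε * K / (4 * c ^ 3) * (K + 1 / (c * q)) * P (N + 2) := by ring
  have w4 : ε * (K * q * SP - ν * (1 + μ) * (K / 2 * SV + 1 / (2 * c * μ) * (SV + V (N + 1)))
      - K / c * SQ - K * q / 4 * (SP + P (N + 1)) - q ^ 2 / 2 * SQ
      - K / (4 * c ^ 3) * (SQ + Q (N + 1)) - K * q / 4 * (SP + P (N + 1) + P (N + 2)))
      = ε * K * q / 2 * SP
        - ε * (ν * (1 + μ) * (K / 2 * SV + 1 / (2 * c * μ) * (SV + V (N + 1))))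
        - ε * (K / c + q ^ 2 / 2 + K / (4 * c ^ 3)) * SQ
        - ε * (K / (4 * c ^ 3) * Q (N + 1)) - ε * K * q * P (N + 1) / 2 - ε * K * q * P (N + 2) / 4 := by
    ring
  rw [w4] at e3'
  rw [w2] at q2
  rw [w3] at q3
  have w5 : (ε * K * q + Cv * δ + (2 * c * q) * (K + 1 / (c * q))
      + ε * K / (4 * c ^ 3) * (K + 1 / (c * q))) * (P N + P (N + 1) + P (N + 2)) =
      ε * K * q * P N + ε * K * q * P (N + 1) + ε * K * q * P (N + 2)
      + Cv * δ * P N + Cv * δ * P (N + 1) + Cv * δ * P (N + 2)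
      + (2 * c * q * (K + 1 / (c * q)) * P N + 2 * c * q * (K + 1 / (c * q)) * P (N + 1)
        + 2 * c * q * (K + 1 / (c * q)) * P (N + 2))
      + (ε * K / (4 * c ^ 3) * (K + 1 / (c * q)) * P N
        + ε * K / (4 * c ^ 3) * (K + 1 / (c * q)) * P (N + 1)
        + ε * K / (4 * c ^ 3) * (K + 1 / (c * q)) * P (N + 2)) := by ring
  rw [w5]
  linarith

end Pool.Agent.W268.Dy
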