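import Mathlib

/-! Polynomial inequalities for the invariant polygon (case A); certificates found by linear programming -/

namespace Pool.Agent.W268.Dy

theorem c2_0 (w x z v d : ℝ)
    (hx : 0 ≤ x)
    (hx1 : 0 ≤ 1 - x)
    (hw : 0 ≤ w)
    (hw1 : 0 ≤ 1 - w)
    (hz : 0 ≤ z)
    (hv : 0 ≤ v)
    (hd : 0 ≤ d)
    (hd1 : 0 ≤ 2 / 3 - d)
    (hgw : 0 ≤ (7 / 20 + d / 4 + 13 / 20 * w) - x)
    (hy1 : 0 ≤ 1 - (7 / 20 + d / 4 + 13 / 20 * x))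
    (hz0 : 0 ≤ z - (33 / 20 * (7 / 20 + d / 4 + 13 / 20 * x) - (13 / 20 + d) - 4 / 5 * v))
    (hza : 0 ≤ z - (5 / 4 * (7 / 20 + d / 4 + 13 / 20 * x) - (2 / 5 + 13 / 20 * d) - 9 / 10 * v))
    (hzb : 0 ≤ z - (13 / 20 * (7 / 20 + d / 4 + 13 / 20 * x) - (3 / 20 + d / 5) - 2 / 5 * v))
    (hlo : 0 ≤ x - 0)
    (hhi : 0 ≤ 9/20 - x)
    : 1 / 10 * v ≤ 4 * ((7 / 20 + d / 4 + 13 / 20 * x) * (z + v) - (1 - d) * x ^ 2)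
      + 13 / 20 * ((1 - d) * w ^ 2 - x * ((7 / 20 + d / 4 + 13 / 20 * x) + v)) := by
  nlinarith [mul_nonneg hzb hhi, mul_nonneg hd1 hza, mul_nonneg hv hd, mul_nonneg hv hhi, mul_nonneg (mul_nonneg hx hd1) hhi, sq_nonneg (w - 0/10), hza, mul_nonneg (mul_nonneg hd hhi) hhi, mul_nonneg (mul_nonneg hx hx) hd, mul_nonneg (mul_nonneg hx hd) hd, mul_nonneg (mul_nonneg hd1 hd1) hhi, mul_nonneg hx hza, mul_nonneg hd hzb, mul_nonneg hx1 hv, mul_nonneg hx1 hzb, mul_nonneg (sq_nonneg (w - 0/10)) hd1]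

theorem c2_1 (w x z v d : ℝ)
    (hx : 0 ≤ x)
    (hx1 : 0 ≤ 1 - x)
    (hw : 0 ≤ w)
    (hw1 : 0 ≤ 1 - w)
    (hz : 0 ≤ z)
    (hv : 0 ≤ v)
    (hd : 0 ≤ d)
    (hd1 : 0 ≤ 2 / 3 - d)
    (hgw : 0 ≤ (7 / 20 + d / 4 + 13 / 20 * w) - x)
    (hy1 : 0 ≤ 1 - (7 / 20 + d / 4 + 13 / 20 * x))
    (hz0 : 0 ≤ z - (33 / 20 * (7 / 20 + d / 4 + 13 / 20 * x) - (13 / 20 + d) - 4 / 5 * v))
    (hza : 0 ≤ z - (5 / 4 * (7 / 20 + d / 4 + 13 / 20 * x) - (2 / 5 + 13 / 20 * d) - 9 / 10 * v))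
    (hzb : 0 ≤ z - (13 / 20 * (7 / 20 + d / 4 + 13 / 20 * x) - (3 / 20 + d / 5) - 2 / 5 * v))
    (hlo : 0 ≤ x - 9/20)
    (hhi : 0 ≤ 3/5 - x)
    : 1 / 10 * v ≤ 4 * ((7 / 20 + d / 4 + 13 / 20 * x) * (z + v) - (1 - d) * x ^ 2)
      + 13 / 20 * ((1 - d) * w ^ 2 - x * ((7 / 20 + d / 4 + 13 / 20 * x) + v)) := by
  nlinarith [mul_nonneg (mul_nonneg hd hlo) hlo, mul_nonneg (mul_nonneg hd hd1) hz0, mul_nonneg (mul_nonneg hd1 hlo) hhi, mul_nonneg (mul_nonneg hd hd) hlo, mul_nonneg (sq_nonneg (w - 3/10)) hd1, mul_nonneg hd hza, mul_nonneg (mul_nonneg hd1 hd1) hhi, mul_nonneg hx1 hza, sq_nonneg (w - 3/10), mul_nonneg hd hzb, mul_nonneg (mul_nonneg hw hd1) hgw, hza, mul_nonneg hw hgw, mul_nonneg (mul_nonneg hd1 hd1) hgw, mul_nonneg hz0 hlo, mul_nonneg hx1 hzb, mul_nonneg (mul_nonneg hd hd) hzb, mul_nonneg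 (mul_nonneg hx hd) hlo, mul_nonneg hv hhi, mul_nonneg hx hz0, mul_nonneg (mul_nonneg hv hd) hd, mul_nonneg hgw hlo, mul_nonneg hd1 hz0, mul_nonneg (mul_nonneg hx hd1) hgw]

theorem c2_2 (w x z v d : ℝ)
    (hx : 0 ≤ x)
    (hx1 : 0 ≤ 1 - x)
    (hw : 0 ≤ w)
    (hw1 : 0 ≤ 1 - w)
    (hz : 0 ≤ z)
    (hv : 0 ≤ v)
    (hd : 0 ≤ d)
    (hd1 : 0 ≤ 2 / 3 - d)
    (hgw : 0 ≤ (7 / 20 + d / 4 + 13 / 20 * w) - x)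
    (hy1 : 0 ≤ 1 - (7 / 20 + d / 4 + 13 / 20 * x))
    (hz0 : 0 ≤ z - (33 / 20 * (7 / 20 + d / 4 + 13 / 20 * x) - (13 / 20 + d) - 4 / 5 * v))
    (hza : 0 ≤ z - (5 / 4 * (7 / 20 + d / 4 + 13 / 20 * x) - (2 / 5 + 13 / 20 * d) - 9 / 10 * v))
    (hzb : 0 ≤ z - (13 / 20 * (7 / 20 + d / 4 + 13 / 20 * x) - (3 / 20 + d / 5) - 2 / 5 * v))
    (hlo : 0 ≤ x - 3/5)
    (hhi : 0 ≤ 4/5 - x)
    : 1 / 10 * v ≤ 4 * ((7 / 20 + d / 4 + 13 / 20 * x) * (z + v) - (1 - d) * x ^ 2)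
      + 13 / 20 * ((1 - d) * w ^ 2 - x * ((7 / 20 + d / 4 + 13 / 20 * x) + v)) := by
  nlinarith [mul_nonneg (mul_nonneg hd hd) hlo, mul_nonneg hx1 hv, mul_nonneg hd1 hz0, mul_nonneg (mul_nonneg hx hd1) hhi, hv, mul_nonneg hd hza, mul_nonneg hx hz0, mul_nonneg (mul_nonneg hw hd1) hgw, mul_nonneg (mul_nonneg hd1 hd1) hgw, mul_nonneg (sq_nonneg (w - 6/10)) hd1, mul_nonneg hgw hlo, mul_nonneg hw hz0, mul_nonneg (mul_nonneg hd1 hd1) hhi, mul_nonneg hd hlo, mul_nonneg (mul_nonneg hd hd) hd1, mul_nonneg hw1 hza, mul_nonneg hv hgw, mul_nonneg hv hd, mul_nonneg hx1 hza, hza, mul_nonneg (mul_nonneg hx hd1) hgw, mul_nonneg hw hgw, hz0, mul_nonneg (mul_nonneg hx hd) hlo]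

theorem c2_3 (w x z v d : ℝ)
    (hx : 0 ≤ x)
    (hx1 : 0 ≤ 1 - x)
    (hw : 0 ≤ w)
    (hw1 : 0 ≤ 1 - w)
    (hz : 0 ≤ z)
    (hv : 0 ≤ v)
    (hd : 0 ≤ d)
    (hd1 : 0 ≤ 2 / 3 - d)
    (hgw : 0 ≤ (7 / 20 + d / 4 + 13 / 20 * w) - x)
    (hy1 : 0 ≤ 1 - (7 / 20 + d / 4 + 13 / 20 * x))
    (hz0 : 0 ≤ z - (33 / 20 * (7 / 20 + d / 4 + 13 / 20 * x) - (13 / 20 + d) - 4 / 5 * v))
    (hza : 0 ≤ z - (5 / 4 * (7 / 20 + d / 4 + 13 / 20 * x) - (2 / 5 + 13 / 20 * d) - 9 / 10 * v))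
    (hzb : 0 ≤ z - (13 / 20 * (7 / 20 + d / 4 + 13 / 20 * x) - (3 / 20 + d / 5) - 2 / 5 * v))
    (hlo : 0 ≤ x - 4/5)
    (hhi : 0 ≤ 1 - x)
    : 1 / 10 * v ≤ 4 * ((7 / 20 + d / 4 + 13 / 20 * x) * (z + v) - (1 - d) * x ^ 2)
      + 13 / 20 * ((1 - d) * w ^ 2 - x * ((7 / 20 + d / 4 + 13 / 20 * x) + v)) := by
  nlinarith [mul_nonneg hw hgw, hz0, mul_nonneg (mul_nonneg hw hd) hd, mul_nonneg hx hgw, mul_nonneg (sq_nonneg (w - 9/10)) hd1, mul_nonneg (mul_nonneg hw1 hd) hd1, mul_nonneg hgw hlo, mul_nonneg hd hlo, mul_nonneg (mul_nonneg hd hd) hlo, mul_nonneg hx1 hv, mul_nonneg hv hd, mul_nonneg (mul_nonneg hx hd) hlo, mul_nonneg (mul_nonneg hx hx) hd, mul_nonneg (mul_nonneg hx hd1) hgw, mul_nonneg hd hza, hv, mul_nonneg hx1 hlo, mul_nonneg hx hz0, mul_nonneg (mul_nonneg hw hd1) hgw, mul_nonneg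 (mul_nonneg hx hx1) hd1, mul_nonneg (sq_nonneg (w - 10/10)) hd1]

theorem c3_0 (w x z v d : ℝ)
    (hx : 0 ≤ x)
    (hx1 : 0 ≤ 1 - x)
    (hw : 0 ≤ w)
    (hw1 : 0 ≤ 1 - w)
    (hz : 0 ≤ z)
    (hv : 0 ≤ v)
    (hd : 0 ≤ d)
    (hd1 : 0 ≤ 2 / 3 - d)
    (hz1 : 0 ≤ 1 - z)
    (hy : 0 ≤ (33 / 20 * x - (13 / 20 + d) - 4 / 5 * v))
    (hgz : 0 ≤ (7 / 20 + d / 4 + 13 / 20 * (33 / 20 * x - (13 / 20 + d) - 4 / 5 * v)) - z)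
    (hx0 : 0 ≤ x - (33 / 20 * w - (13 / 20 + d) - 4 / 5 * v))
    (hxa : 0 ≤ x - (5 / 4 * w - (2 / 5 + 13 / 20 * d) - 9 / 10 * v))
    (hxb : 0 ≤ x - (13 / 20 * w - (3 / 20 + d / 5) - 2 / 5 * v))
    (hya : 0 ≤ (33 / 20 * x - (13 / 20 + d) - 4 / 5 * v) - (5 / 4 * x - (2 / 5 + 13 / 20 * d) - 9 / 10 * v))
    (hyb : 0 ≤ (33 / 20 * x - (13 / 20 + d) - 4 / 5 * v) - (13 / 20 * x - (3 / 20 + d / 5) - 2 / 5 * v))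
    : 1 / 10 * v ≤ 4 * ((1 - d) * x ^ 2 - (33 / 20 * x - (13 / 20 + d) - 4 / 5 * v) * z - v * (33 / 20 * x - (13 / 20 + d) - 4 / 5 * v))
      - 33 / 20 * ((1 - d) * w ^ 2 - x * ((33 / 20 * x - (13 / 20 + d) - 4 / 5 * v) + v)) := by
  nlinarith [mul_nonneg hy hgz, mul_nonneg hv hx0, mul_nonneg hx1 hv, hya, mul_nonneg (mul_nonneg hx hd1) hx0, mul_nonneg hx1 hx0, mul_nonneg hw1 hd1, mul_nonneg (mul_nonneg hx1 hw1) hd1, mul_nonneg (mul_nonneg hx1 hd) hy, mul_nonneg (mul_nonneg hx1 hd) hx0, mul_nonneg (mul_nonneg hw hd1) hx0, mul_nonneg hx1 hya, hw1, hx0, mul_nonneg (mul_nonneg hx1 hd) hyb, mul_nonneg hv hv, hv, mul_nonneg hw1 hy, mul_nonneg (mul_nonneg hw1 hd) hy, mul_nonneg (mul_nonneg hx hv) hd, mul_nonneg hw hx0, mul_nonneg hv hd]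

theorem c3_1 (w x z v d : ℝ)
    (hx : 0 ≤ x)
    (hx1 : 0 ≤ 1 - x)
    (hw : 0 ≤ w)
    (hw1 : 0 ≤ 1 - w)
    (hz : 0 ≤ z)
    (hv : 0 ≤ v)
    (hd : 0 ≤ d)
    (hd1 : 0 ≤ 2 / 3 - d)
    (hz1 : 0 ≤ 1 - z)
    (hy : 0 ≤ (5 / 4 * x - (2 / 5 + 13 / 20 * d) - 9 / 10 * v))
    (hgz : 0 ≤ (7 / 20 + d / 4 + 13 / 20 * (5 / 4 * x - (2 / 5 + 13 / 20 * d) - 9 / 10 * v)) - z)
    (hx0 : 0 ≤ x - (33 / 20 * w - (13 / 20 + d) - 4 / 5 * v))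
    (hxa : 0 ≤ x - (5 / 4 * w - (2 / 5 + 13 / 20 * d) - 9 / 10 * v))
    (hxb : 0 ≤ x - (13 / 20 * w - (3 / 20 + d / 5) - 2 / 5 * v))
    (hy0 : 0 ≤ (5 / 4 * x - (2 / 5 + 13 / 20 * d) - 9 / 10 * v) - (33 / 20 * x - (13 / 20 + d) - 4 / 5 * v))
    (hyb : 0 ≤ (5 / 4 * x - (2 / 5 + 13 / 20 * d) - 9 / 10 * v) - (13 / 20 * x - (3 / 20 + d / 5) - 2 / 5 * v))
    : 1 / 10 * v ≤ 4 * ((1 - d) * x ^ 2 - (5 / 4 * x - (2 / 5 + 13 / 20 * d) - 9 / 10 * v) * z - v * (5 / 4 * x - (2 / 5 + 13 / 20 * d) - 9 / 10 * v))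
      - 5 / 4 * ((1 - d) * w ^ 2 - x * ((5 / 4 * x - (2 / 5 + 13 / 20 * d) - 9 / 10 * v) + v)) := by
  nlinarith [mul_nonneg hw hx0, mul_nonneg (mul_nonneg hw hd1) hx0, mul_nonneg (mul_nonneg hw hv) hx0, mul_nonneg hv hx0, mul_nonneg (mul_nonneg hx1 hx1) hy, mul_nonneg hx hv, mul_nonneg (mul_nonneg hy hy) hy, mul_nonneg (mul_nonneg hw hd) hy0, mul_nonneg hy hgz, mul_nonneg (mul_nonneg hw1 hd) hy, mul_nonneg (mul_nonneg hw1 hd) hd1, mul_nonneg (mul_nonneg hd1 hy) hy, mul_nonneg hd1 hyb, hv, mul_nonneg (mul_nonneg hw hw1) hy, mul_nonneg hw hv, mul_nonneg (mul_nonneg hw hd1) hxa, mul_nonneg (mul_nonneg hx hw) hw1, mul_nonneg (mul_nonneg hx1 hw) hx0, mul_nonneg (mul_nonneg hw hv) hy, mul_nonneg (mul_nonneg hx hx) hv, mul_nonneg (mul_nonneg hd1 hy) hxa, mul_nonneg hw1 hy, mul_nonneg hx1 hx0,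 mul_nonneg hgz hyb, mul_nonneg hv hxa, mul_nonneg (mul_nonneg hx hx1) hd, mul_nonneg (mul_nonneg hv hy) hy, mul_nonneg (mul_nonneg hw hd1) hyb, mul_nonneg (mul_nonneg hx hd1) hxa, mul_nonneg (mul_nonneg hx1 hx0) hxa, mul_nonneg (mul_nonneg hx hx1) hx0, mul_nonneg (mul_nonneg hx1 hd) hxa]

theorem c3_2 (w x z v d : ℝ)
    (hx : 0 ≤ x)
    (hx1 : 0 ≤ 1 - x)
    (hw : 0 ≤ w)
    (hw1 : 0 ≤ 1 - w)
    (hz : 0 ≤ z)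
    (hv : 0 ≤ v)
    (hd : 0 ≤ d)
    (hd1 : 0 ≤ 2 / 3 - d)
    (hz1 : 0 ≤ 1 - z)
    (hy : 0 ≤ (13 / 20 * x - (3 / 20 + d / 5) - 2 / 5 * v))
    (hgz : 0 ≤ (7 / 20 + d / 4 + 13 / 20 * (13 / 20 * x - (3 / 20 + d / 5) - 2 / 5 * v)) - z)
    (hx0 : 0 ≤ x - (33 / 20 * w - (13 / 20 + d) - 4 / 5 * v))
    (hxa : 0 ≤ x - (5 / 4 * w - (2 / 5 + 13 / 20 * d) - 9 / 10 * v))
    (hxb : 0 ≤ x - (13 / 20 * w - (3 / 20 + d / 5) - 2 / 5 * v))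
    (hy0 : 0 ≤ (13 / 20 * x - (3 / 20 + d / 5) - 2 / 5 * v) - (33 / 20 * x - (13 / 20 + d) - 4 / 5 * v))
    (hya : 0 ≤ (13 / 20 * x - (3 / 20 + d / 5) - 2 / 5 * v) - (5 / 4 * x - (2 / 5 + 13 / 20 * d) - 9 / 10 * v))
    : 1 / 10 * v ≤ 4 * ((1 - d) * x ^ 2 - (13 / 20 * x - (3 / 20 + d / 5) - 2 / 5 * v) * z - v * (13 / 20 * x - (3 / 20 + d / 5) - 2 / 5 * v))
      - 13 / 20 * ((1 - d) * w ^ 2 - x * ((13 / 20 * x - (3 / 20 + d / 5) - 2 / 5 * v) + v)) := by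
  nlinarith [mul_nonneg (mul_nonneg hv hv) hy, mul_nonneg (mul_nonneg hx hw1) hd, mul_nonneg (mul_nonneg hy0 hy0) hya, mul_nonneg hv hv, mul_nonneg hy hy, mul_nonneg hw hv, mul_nonneg hv hxa, mul_nonneg (mul_nonneg hx1 hx1) hw1, mul_nonneg hx0 hx0, mul_nonneg (mul_nonneg hd1 hxa) hxa, mul_nonneg (mul_nonneg hx hd1) hy, mul_nonneg (mul_nonneg hx hx) hw1, mul_nonneg (mul_nonneg hx1 hv) hd, mul_nonneg (mul_nonneg hw hd1) hxa, mul_nonneg (mul_nonneg hx hd1) hxa, mul_nonneg (mul_nonneg hd1 hx0) hx0, mul_nonneg (mul_nonneg hw hd1) hy, hxa, mul_nonneg hw hxa, mul_nonneg (mul_nonneg hx hv) hv, mul_nonneg (mul_nonneg hx hv) hd1, mul_nonneg (mul_nonneg hy0 hya) hya, mul_nonneg (mul_nonneg hx hx1) hxa, mul_nonneg (mul_nonneg hx hy) hy, mul_nonneg hw1 hd, mul_nonneg (mul_nonneg hv hd) hy0, mul_nonneg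 (mul_nonneg hw1 hd1) hy0, mul_nonneg hw hw1, mul_nonneg hy hgz, hv, mul_nonneg hx hxa]

end Pool.Agent.W268.Dy
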