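import Mathlib

/-! First exit argument for finitely many barrier functions -/

namespace Pool.Agent.W268.Dy

open Set Filter Topology

theorem neg_right_of_hasDerivAt {f : ℝ → ℝ} {d t : ℝ} (hf : HasDerivAt f d t) (hd : d < 0)
    (h0 : f t = 0) : ∀ᶠ s in 𝓝[>] t, f s ≤ 0 := by
  have h1 := (hasDerivAt_iff_tendsto_slope.1 hf)
  have h2 : ∀ᶠ s in 𝓝[≠] t, slope f t s < 0 := h1.eventually (gt_mem_nhds hd)
  have h3 : ∀ᶠ s in 𝓝[>] t, slope f t s < 0 :=
    h2.filter_mono (nhdsWithin_mono t (fun s hs => ne_of_gt hs))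
  filter_upwards [h3, self_mem_nhdsWithin] with s hs hst
  have hpos : 0 < s - t := sub_pos.2 hst
  rw [slope_def_field, h0, sub_zero] at hs
  by_contra hcon
  push Not at hcon
  exact absurd hs (not_lt.2 (div_nonneg hcon.le hpos.le))

theorem first_exit {ι : Type} [Finite ι] (f : ι → ℝ → ℝ) (a b : ℝ) 
    (hc : ∀ i, ContinuousOn (f i) (Icc a b)) (h0 : ∀ i, f i a < 0)
    (hd : ∀ t, a < t → t < b → (∀ i, f i t ≤ 0) → ∀ i, f i t = 0 →
      ∃ d, d < 0 ∧ HasDerivAt (f i) d t) :
    ∀ t ∈ Icc a b, ∀ i, f i t ≤ 0 := by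
  by_cases hab : a ≤ b
  swap
  · intro t ht
    exact absurd (ht.1.trans ht.2) hab
  have key : Icc a b ⊆ {t | ∀ i, f i t ≤ 0} := by
    apply IsClosed.Icc_subset_of_forall_exists_gt
    · have : {t | ∀ i, f i t ≤ 0} ∩ Icc a b = (⋂ i, (Icc a b ∩ f i ⁻¹' Iic 0)) ∩ Icc a b := by
        ext t
        simp only [mem_inter_iff, mem_ofPred_eq, mem_iInter, mem_preimage, mem_Iic]
        constructor
        · rintro ⟨h, ht⟩
          exact ⟨fun i => ⟨ht, h i⟩, ht⟩
        · rintro ⟨h, ht⟩
          exact ⟨fun i => (h i).2, ht⟩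
      rw [this]
      apply IsClosed.inter _ isClosed_Icc
      apply isClosed_iInter
      intro i
      exact (hc i).preimage_isClosed_of_isClosed isClosed_Icc isClosed_Iic
    · exact fun i => (h0 i).le
    · rintro t ⟨ht, hta, htb⟩ y hy
      have hev : ∀ᶠ s in 𝓝[>] t, ∀ i, f i s ≤ 0 := by
        rw [eventually_all]
        intro i
        rcases lt_or_eq_of_le (ht i) with hlt | heq
        · have hcw : ContinuousWithinAt (f i) (Icc a b) t := hc i t ⟨hta, htb.le⟩
          have h1 : ∀ᶠ s in 𝓝[Icc a b] t, f i s < 0 := hcw.eventually (gt_mem_nhds hlt)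
          have h2 : ∀ᶠ s in 𝓝[>] t, s ∈ Icc a b := by
            filter_upwards [Ioo_mem_nhdsGT htb] with s hs
            exact ⟨hta.trans hs.1.le, hs.2.le⟩
          have h3 : 𝓝[>] t ≤ 𝓝[Icc a b] t := by
            rw [nhdsWithin_le_iff]
            exact h2
          exact (h1.filter_mono h3).mono fun s hs => hs.le
        · have hta' : a < t := by
            rcases lt_or_eq_of_le hta with h | h
            · exact h
            · subst h
              exact absurd heq (ne_of_lt (h0 i))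
          obtain ⟨d, hd0, hdd⟩ := hd t hta' htb ht i heq
          exact neg_right_of_hasDerivAt hdd hd0 heq
      have h4 : ∀ᶠ s in 𝓝[>] t, s ∈ Ioc t y := Ioc_mem_nhdsGT hy
      obtain ⟨s, hs1, hs2⟩ := (hev.and h4).exists
      exact ⟨s, hs1, hs2⟩
  intro t ht
  exact key ht

end Pool.Agent.W268.Dy
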