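import Pool.Agent.W268.Dy.Reg

/-! Case A for all `μ ≥ 4` -/

namespace Pool.Agent.W268.Dy

theorem p3_0 (x z v y d : ℝ) (hx : 0 ≤ x) (hx1 : x ≤ 1) (hv : 0 ≤ v) (hd : 0 ≤ d)
    (hd1 : d ≤ 2 / 3) (hy : y = 33 / 20 * x - (13 / 20 + d) - 4 / 5 * v) (hy0 : 0 ≤ y)
    (hzz : z ≤ 7 / 20 + d / 4 + 13 / 20 * y) :
    0 ≤ (1 - d) * x ^ 2 - y * z - v * y := by
  have h1 : y * z ≤ y * (7 / 20 + d / 4 + 13 / 20 * y) := mul_le_mul_of_nonneg_left hzz hy0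
  subst hy
  nlinarith [mul_nonneg hv hy0, mul_nonneg hd hy0, mul_nonneg hy0 hy0,
    mul_nonneg (sub_nonneg.2 hx1) hy0, mul_nonneg hd hv, mul_nonneg (sub_nonneg.2 hx1) hd,
    mul_nonneg (sub_nonneg.2 hx1) (sub_nonneg.2 hx1), mul_nonneg hx (sub_nonneg.2 hx1),
    mul_nonneg hd (sub_nonneg.2 hd1)]

theorem p3_1 (x z v y d : ℝ) (hx : 0 ≤ x) (hx1 : x ≤ 1) (hv : 0 ≤ v) (hd : 0 ≤ d)
    (hd1 : d ≤ 2 / 3) (hy : y = 5 / 4 * x - (2 / 5 + 13 / 20 * d) - 9 / 10 * v) (hy0 : 0 ≤ y)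
    (hzz : z ≤ 7 / 20 + d / 4 + 13 / 20 * y) (hl : 33 / 20 * x - (13 / 20 + d) - 4 / 5 * v ≤ y) :
    0 ≤ (1 - d) * x ^ 2 - y * z - v * y := by
  have h1 : y * z ≤ y * (7 / 20 + d / 4 + 13 / 20 * y) := mul_le_mul_of_nonneg_left hzz hy0
  subst hy
  nlinarith [mul_nonneg hv hy0, mul_nonneg hd hy0, mul_nonneg hy0 hy0,
    mul_nonneg (sub_nonneg.2 hx1) hy0, mul_nonneg hd hv, mul_nonneg (sub_nonneg.2 hx1) hd,
    mul_nonneg (sub_nonneg.2 hx1) (sub_nonneg.2 hx1), mul_nonneg hx (sub_nonneg.2 hx1),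
    mul_nonneg hd (sub_nonneg.2 hd1)]

theorem p3_2 (x z v y d : ℝ) (hx : 0 ≤ x) (hx1 : x ≤ 1) (hv : 0 ≤ v) (hd : 0 ≤ d)
    (hd1 : d ≤ 2 / 3) (hy : y = 13 / 20 * x - (3 / 20 + d / 5) - 2 / 5 * v) (hy0 : 0 ≤ y)
    (hzz : z ≤ 7 / 20 + d / 4 + 13 / 20 * y) :
    0 ≤ (1 - d) * x ^ 2 - y * z - v * y := by
  have h1 : y * z ≤ y * (7 / 20 + d / 4 + 13 / 20 * y) := mul_le_mul_of_nonneg_left hzz hy0
  subst hy
  nlinarith [mul_nonneg hv hy0, mul_nonneg hd hy0, mul_nonneg hy0 hy0,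
    mul_nonneg (sub_nonneg.2 hx1) hy0, mul_nonneg hd hv, mul_nonneg (sub_nonneg.2 hx1) hd,
    mul_nonneg (sub_nonneg.2 hx1) (sub_nonneg.2 hx1), mul_nonneg hx (sub_nonneg.2 hx1),
    mul_nonneg hd (sub_nonneg.2 hd1)]

theorem regA' (d : ℝ) (hd : 0 ≤ d) (hd1 : d ≤ 2 / 3) (μ : ℝ) (hμ : 4 ≤ μ) :
    RegOK μ (1 - d) (1 / 10) (13 / 20) (7 / 20 + d / 4) HA (eA d) σA := by
  have R := regA d hd hd1
  refine ⟨R.hG, R.hG1, R.hg0, R.hH, R.he, R.he1, R.hσ, R.hσ1, R.E1, ?_, ?_⟩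
  · intro w x z v hw hw1 hx hx1 hz hv hgw hy1 h
    have h0 := R.E2 w x z v hw hw1 hx hx1 hz hv hgw hy1 h
    obtain ⟨y, hy⟩ : ∃ y, y = 7 / 20 + d / 4 + 13 / 20 * x := ⟨_, rfl⟩
    have hP : 0 ≤ y * (z + v) - (1 - d) * x ^ 2 := by
      rcases le_total x (7 / 20 + d / 4) with hx0 | hx0
      · have h1 := R.E2 0 x z v le_rfl (by norm_num) hx hx1 hz hv (by linarith) hy1 h
        rw [← hy] at h1
        have hy0 : 0 ≤ y := by linarith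
        have h2 : 0 ≤ x * (y + v) := by positivity
        nlinarith
      · obtain ⟨w0, hw0⟩ : ∃ w0, w0 = (x - (7 / 20 + d / 4)) / (13 / 20) := ⟨_, rfl⟩
        have hx' : x = 7 / 20 + d / 4 + 13 / 20 * w0 := by rw [hw0]; ring
        have hw00 : 0 ≤ w0 := by linarith
        have hw01 : w0 ≤ 1 := by linarith
        have h1 := R.E2 w0 x z v hw00 hw01 hx hx1 hz hv hx'.le hy1 h
        rw [← hy] at h1
        have h2 : (1 - d) * w0 ^ 2 ≤ x * y := by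
          rw [hy, hx']
          nlinarith [mul_nonneg hw00 (sub_nonneg.2 hw01), mul_nonneg hd hw00, mul_nonneg hd hd,
            mul_nonneg hd (sub_nonneg.2 hw01), mul_nonneg (sub_nonneg.2 hw01) (sub_nonneg.2 hw01),
            mul_nonneg hd (mul_nonneg hw00 hw00)]
        have h3 : 0 ≤ x * v := by positivity
        nlinarith
    rw [← hy] at h0 ⊢
    have h4 : 0 ≤ (μ - 4) * (y * (z + v) - (1 - d) * x ^ 2) := mul_nonneg (by linarith) hP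
    nlinarith
  · intro k w x z v y hw hw1 hx hx1 hz hz1 hv hy hy0 hgz hwl hxl
    have h0 := R.E3 k w x z v y hw hw1 hx hx1 hz hz1 hv hy hy0 hgz hwl hxl
    have hP : 0 ≤ (1 - d) * x ^ 2 - y * z - v * y := by
      have b0 := hxl 0
      simp only [HA, eA, σA, Matrix.cons_val_zero] at b0
      fin_cases k
      · simp only [HA, eA, σA, Fin.zero_eta, Matrix.cons_val_zero] at hy
        exact p3_0 x z v y d hx hx1 hv hd hd1 hy hy0 hgz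
      · simp only [HA, eA, σA, Fin.mk_one, Matrix.cons_val_one, Matrix.cons_val_zero] at hy
        exact p3_1 x z v y d hx hx1 hv hd hd1 hy hy0 hgz b0
      · simp only [HA, eA, σA, Fin.reduceFinMk, Matrix.cons_val] at hy
        exact p3_2 x z v y d hx hx1 hv hd hd1 hy hy0 hgz
    have h4 : 0 ≤ (μ - 4) * ((1 - d) * x ^ 2 - y * z - v * y) := mul_nonneg (by linarith) hP
    nlinarith

end Pool.Agent.W268.Dy
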