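import Pool.Agent.W268.Dy.Inv
import Pool.Agent.W268.Dy.RegX
import Pool.Agent.W333.DyGE
import Pool.Agent.W455.DyGal
import Pool.Agent.W64.Dy.En
import Pool.Agent.W578.Dy.Dif
import Pool.Agent.W479.DyBoot
import Pool.Agent.W363.Dy.Lim

/-! Assembly, part 1: choice of the parameters, uniform bounds for the Galerkin solutions -/

namespace Pool.Agent.W268.Dy

open Finset Filter Topology

theorem pGE : S_GE := Pool.Agent.W333.DyGE.main
theorem pgal : S_gal := Pool.Agent.W455.DyGal.main pGE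
theorem pen : S_en := Pool.Agent.W64.Dy.main
theorem pdiff : S_diff := Pool.Agent.W578.Dy.Dif.main
theorem pboot : S_boot := Pool.Agent.W479.DyBoot.main
theorem pboot0 : S_boot0 := Pool.Agent.W479.DyBoot.main0
theorem plim : S_lim := Pool.Agent.W363.Dy.main pen

/-- admissible parameters -/
def Adm (K : ℕ) (q μ : ℝ) : Prop :=
  (4 ≤ μ ∧ q ^ 2 ≤ K * μ ^ 3) ∨ (q ^ 2 < K * μ ^ 3 ∧ 10 * q ^ 2 ≤ K * μ ^ 4)

theorem reg_exists {K : ℕ} {q μ : ℝ} (hK : 0 < K) (hq : 0 < q) (hμ : 1 < μ) (hA : Adm K q μ) :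
    ∃ (c B G g0 : ℝ) (J : ℕ) (H e σ : Fin J → ℝ), 0 < c ∧ 1 ≤ B ∧ (∀ k, H k ≤ B) ∧
      q ^ 2 / (K * μ ^ 3) ≤ 1 ∧ RegOK μ (q ^ 2 / (K * μ ^ 3)) c G g0 H e σ := by
  have hK' : (0:ℝ) < K := by exact_mod_cast hK
  have hμ0 : 0 < μ := by linarith
  have hd : (0:ℝ) < K * μ ^ 3 := by positivity
  obtain ⟨θ, hθ⟩ : ∃ θ, θ = q ^ 2 / (K * μ ^ 3) := ⟨_, rfl⟩
  have hθ0 : 0 < θ := by rw [hθ]; positivity
  rw [← hθ]
  have hB : ∀ θ, 0 < θ → θ < 1 → 10 * θ ≤ μ →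
      ∃ (c B G g0 : ℝ) (J : ℕ) (H e σ : Fin J → ℝ), 0 < c ∧ 1 ≤ B ∧ (∀ k, H k ≤ B) ∧
      θ ≤ 1 ∧ RegOK μ θ c G g0 H e σ := by
    intro θ hθ0 hθ1 hθμ
    refine ⟨_, μ + 1, _, _, 1, _, _, _, ?_, by linarith, ?_, hθ1.le, regB μ θ hθ0 hθ1 hθμ⟩
    · have : 0 < min 1 μ := lt_min one_pos hμ0
      have : 0 < (1 - θ) / 2 := by linarith
      positivity
    · intro k
      show (μ - θ) / 2 ≤ μ + 1
      linarith
  rcases hA with ⟨h4, hle⟩ | ⟨hlt, h10⟩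
  · have hθ1 : θ ≤ 1 := by rw [hθ, div_le_one hd]; exact hle
    by_cases h3 : 1 / 3 ≤ θ
    · have h := regA' (1 - θ) (by linarith) (by linarith) μ h4
      rw [sub_sub_cancel] at h
      refine ⟨_, 2, _, _, 3, _, _, _, by norm_num, by norm_num, ?_, hθ1, h⟩
      intro k
      fin_cases k <;> simp [HA] <;> norm_num
    · exact hB θ hθ0 (by linarith) (by linarith)
  · apply hB θ hθ0
    · rw [hθ, div_lt_one hd]; exact hlt
    · rw [hθ]
      rw [← mul_div_assoc, div_le_iff₀ hd]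
      nlinarith

theorem inv_exists {K : ℕ} {ν q μ : ℝ} (hK : 0 < K) (hν : 0 < ν) (hq : 0 < q) (hμ : 1 < μ)
    (hA : Adm K q μ) {M : ℝ} (hM : 0 < M) {rb : ℝ} (hrb : 1 < rb) :
    ∃ r, 1 < r ∧ r ≤ 2 ∧ r ≤ rb ∧ ∃ N0 : ℕ, ∀ N, N0 ≤ N → ∀ X : ℝ → Node K → ℝ, IsGal ν μ q N X →
      ∀ T0, 0 ≤ T0 → (∀ w, X T0 w ≤ M / 5 * (μ / (q * r)) ^ w.length) →
        ∀ t, T0 ≤ t → ∀ w, X t w ≤ M * (μ / (q * r)) ^ w.length := by
  obtain ⟨c, B, G, g0, J, H, e, σ, hc, hB1, hB, hθ1, R⟩ := reg_exists hK hq hμ hA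
  have hK' : (0:ℝ) < K := by exact_mod_cast hK
  have hμ0 : 0 < μ := by linarith
  obtain ⟨v00, hv00⟩ : ∃ v00, v00 = ν / (K * M * μ) := ⟨_, rfl⟩
  have hv000 : 0 < v00 := by rw [hv00]; positivity
  obtain ⟨δ, hδ⟩ : ∃ δ, δ = min (min 1 (rb - 1)) (min (c * v00 / (10 * μ))
    (min (c / (10 * μ)) (c * v00 / (8 * B)))) := ⟨_, rfl⟩
  have hδ0 : 0 < δ := by
    rw [hδ]
    refine lt_min (lt_min one_pos (by linarith)) (lt_min ?_ (lt_min ?_ ?_)) <;> positivity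
  have h1 : δ ≤ 1 := by rw [hδ]; exact (min_le_left _ _).trans (min_le_left _ _)
  have h2 : δ ≤ rb - 1 := by rw [hδ]; exact (min_le_left _ _).trans (min_le_right _ _)
  have h3 : δ ≤ c * v00 / (10 * μ) := by
    rw [hδ]; exact (min_le_right _ _).trans (min_le_left _ _)
  have h4 : δ ≤ c / (10 * μ) := by
    rw [hδ]; exact (min_le_right _ _).trans ((min_le_right _ _).trans (min_le_left _ _))
  have h5 : δ ≤ c * v00 / (8 * B) := by
    rw [hδ]; exact (min_le_right _ _).trans ((min_le_right _ _).trans (min_le_right _ _))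
  rw [le_div_iff₀ (by positivity)] at h3 h4 h5
  have hv0 : v00 ≤ ν * (1 + δ) / (K * M * μ) := by
    rw [hv00]
    apply div_le_div_of_nonneg_right _ (by positivity)
    nlinarith
  have hv0c : c * v00 ≤ c * (ν * (1 + δ) / (K * M * μ)) := mul_le_mul_of_nonneg_left hv0 hc.le
  refine ⟨1 + δ, by linarith, by linarith, by linarith, ?_⟩
  have S : Small μ (q ^ 2 / (K * μ ^ 3)) c (1 + δ) (μ / (1 + δ)) (q ^ 2 / (K * μ ^ 3) * (1 + δ) ^ 3)
      (ν * (1 + δ) / (K * M * μ)) B H := by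
    refine ⟨hμ0, by positivity, hθ1, hc, by linarith, by linarith, ?_, rfl, by positivity, hB1, hB,
      ?_, ?_, ?_⟩
    · field_simp
    · calc 10 * (μ * (1 + δ - 1)) = δ * (10 * μ) := by ring
        _ ≤ c * v00 := h3
        _ ≤ _ := hv0c
    · calc 10 * (μ * (1 + δ - 1)) = δ * (10 * μ) := by ring
        _ ≤ c := h4
    · calc 8 * (B * (1 + δ - 1)) = δ * (8 * B) := by ring
        _ ≤ c * v00 := h5
        _ ≤ _ := hv0c
  have ht : Tendsto (fun N : ℕ => ν * (1 + δ) ^ (N + 1)) atTop atTop := by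
    apply Tendsto.const_mul_atTop hν
    exact (tendsto_pow_atTop_atTop_of_one_lt (by linarith)).comp (tendsto_add_atTop_nat 1)
  obtain ⟨N0, hN0⟩ := (ht.eventually_ge_atTop (5 * (K * M * μ))).exists_forall_of_atTop
  refine ⟨N0, fun N hN X hX T0 hT0 hini => ?_⟩
  exact invariance hK hν hq hM R rfl S (hN0 N hN) hX hT0 hini

theorem IsPart.mono {K : ℕ} {ν μ q : ℝ} {N M : ℕ} {X : ℝ → Node K → ℝ} (h : IsPart ν μ q N X)
    (hM : M ≤ N) : IsPart ν μ q M X :=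
  ⟨h.nonneg, h.cont, fun w hw => h.ode w (hw.trans hM)⟩

theorem IsSol.part {K : ℕ} {ν μ q : ℝ} {X : ℝ → Node K → ℝ} (h : IsSol ν μ q X) (M : ℕ) :
    IsPart ν μ q M X :=
  ⟨h.nonneg, h.cont, fun w _ => h.ode w⟩

theorem IsGal.sub {K : ℕ} {ν μ q : ℝ} {N : ℕ} {X : ℝ → Node K → ℝ} (h : IsGal ν μ q N X)
    (hq : 0 < q) {t1 : ℝ} (ht1 : 0 ≤ t1) : Sub ν μ q t1 X := by
  refine ⟨fun t ht => h.nonneg t (ht1.trans ht), fun w => (h.cont w).mono ?_, ?_⟩
  · intro t ht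
    exact ht1.trans ht
  · intro w t ht
    have ht0 : 0 < t := lt_of_le_of_lt ht1 ht
    by_cases hw : w.length ≤ N
    · refine ⟨_, h.ode w hw t ht0, ?_⟩
      have h1 : 0 ≤ ∑ c : Fin K, X t (c :: w) := Finset.sum_nonneg fun c _ => h.nonneg t ht0.le _
      have h2 : 0 ≤ q ^ (w.length + 1) * X t w * ∑ c : Fin K, X t (c :: w) :=
        mul_nonneg (mul_nonneg (by positivity) (h.nonneg t ht0.le w)) h1
      unfold rhs
      linarith
    · refine ⟨0, ?_, ?_⟩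
      · have : (fun s => X s w) =ᶠ[𝓝 t] fun _ => 0 := by
          filter_upwards [lt_mem_nhds ht0] with s hs
          exact h.zero s hs.le w (by omega)
        exact (hasDerivAt_const t (0:ℝ)).congr_of_eventuallyEq this
      · rw [h.zero t ht0.le w (by omega)]
        have : 0 ≤ gain q (X t) w := by
          cases w with
          | nil => simp [gain]
          | cons c u => simp only [gain]; positivity
        linarith

end Pool.Agent.W268.Dy
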