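import Pool.Agent.W268.Dy.Fin2

/-! Assembly, part 3: global regularity -/

namespace Pool.Agent.W268.Dy

open Finset Filter Topology

variable {K : ℕ} {ν μ q : ℝ}

/-- rapidly decreasing configurations -/
def Rapid (u : Node K → ℝ) : Prop := ∀ m : ℕ, ∃ C : ℝ, ∀ w, 2 ^ (m * w.length) * u w ≤ C

theorem Rapid.bound {u : Node K → ℝ} (h : Rapid u) {ρ : ℝ} (hρ : 0 < ρ) :
    ∃ C, 0 ≤ C ∧ ∀ w, u w ≤ C * ρ ^ w.length := by
  obtain ⟨m, hm⟩ := exists_pow_lt_of_lt_one hρ (show (1/2:ℝ) < 1 by norm_num)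
  obtain ⟨C, hC⟩ := h m
  refine ⟨|C|, abs_nonneg _, fun w => ?_⟩
  have h1 := hC w
  have h2 : (0:ℝ) < 2 ^ (m * w.length) := by positivity
  have h3 : u w ≤ C / 2 ^ (m * w.length) := by rw [le_div_iff₀ h2]; linarith
  have h4 : C / 2 ^ (m * w.length) ≤ |C| * (1 / 2 ^ (m * w.length)) := by
    rw [mul_one_div]
    exact div_le_div_of_nonneg_right (le_abs_self C) h2.le
  refine h3.trans (h4.trans (mul_le_mul_of_nonneg_left ?_ (abs_nonneg _)))
  calc (1:ℝ) / 2 ^ (m * w.length) = ((1 / 2) ^ m) ^ w.length := by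
        rw [← pow_mul, div_pow, one_pow]
    _ ≤ ρ ^ w.length := pow_le_pow_left₀ (by positivity) hm.le _

theorem conv_pow (m n : ℕ) {x A : ℝ} (h : x ≤ A * ((1 / 2 : ℝ) ^ m) ^ n) :
    2 ^ (m * n) * x ≤ A := by
  have h2 : (0:ℝ) < 2 ^ (m * n) := by positivity
  calc 2 ^ (m * n) * x ≤ 2 ^ (m * n) * (A * ((1 / 2 : ℝ) ^ m) ^ n) :=
        mul_le_mul_of_nonneg_left h h2.le
    _ = A := by
        rw [← pow_mul, div_pow, one_pow]
        field_simp

/-- finite energy of a configuration -/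
def En (u : Node K → ℝ) (E : ℝ) : Prop := ∀ N, ∑ n ∈ range N, gsum n (fun w => u w ^ 2) ≤ E

theorem Rapid.en {u : Node K → ℝ} (h : Rapid u) (hK : 0 < K) (hu : ∀ w, 0 ≤ u w) :
    ∃ E, En u E := by
  have hK' : (0:ℝ) < K := by exact_mod_cast hK
  have hρ : (0:ℝ) < 1 / (2 * K) := by positivity
  have hK1 : (1:ℝ) ≤ K := by exact_mod_cast hK
  have hρ1 : 1 / (2 * (K:ℝ)) ≤ 1 := by rw [div_le_one (by positivity)]; linarith
  obtain ⟨C, hC0, hC⟩ := h.bound hρ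
  refine ⟨2 * C ^ 2, fun N => ?_⟩
  have h1 : ∀ n, gsum n (fun w => u w ^ 2) ≤ C ^ 2 * (1 / 2 : ℝ) ^ n := by
    intro n
    calc gsum n (fun w => u w ^ 2) ≤ (K:ℝ) ^ n * (C ^ 2 * (1 / (2 * (K:ℝ))) ^ n) := by
          apply gsum_le_const
          intro w hw
          calc u w ^ 2 ≤ (C * (1 / (2 * (K:ℝ))) ^ n) ^ 2 :=
                pow_le_pow_left₀ (hu w) (hw ▸ hC w) 2
            _ = C ^ 2 * ((1 / (2 * (K:ℝ))) ^ n * (1 / (2 * (K:ℝ))) ^ n) := by ring
            _ ≤ C ^ 2 * ((1 / (2 * (K:ℝ))) ^ n * 1) := by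
                apply mul_le_mul_of_nonneg_left _ (by positivity)
                exact mul_le_mul_of_nonneg_left (pow_le_one₀ hρ.le hρ1) (by positivity)
            _ = _ := by ring
      _ = C ^ 2 * (1 / 2 : ℝ) ^ n := by
          rw [div_pow, div_pow, mul_pow]
          field_simp
  calc ∑ n ∈ range N, gsum n (fun w => u w ^ 2)
      ≤ ∑ n ∈ range N, C ^ 2 * (1 / 2 : ℝ) ^ n := Finset.sum_le_sum fun n _ => h1 n
    _ = C ^ 2 * ∑ n ∈ range N, (1 / 2 : ℝ) ^ n := by rw [Finset.mul_sum]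
    _ ≤ C ^ 2 * 2 := by
        apply mul_le_mul_of_nonneg_left _ (by positivity)
        rw [geom_sum_eq (by norm_num)]
        have : (0:ℝ) < (1 / 2) ^ N := by positivity
        rw [div_le_iff_of_neg (by norm_num)]
        linarith
    _ = 2 * C ^ 2 := by ring

theorem gal_en {N : ℕ} {X : ℝ → Node K → ℝ} {u : Node K → ℝ} {E : ℝ}
    (hX0 : ∀ w, w.length ≤ N → X 0 w = u w) (hE : En u E) :
    ∑ n ∈ range (N + 1), gsum n (fun w => X 0 w ^ 2) ≤ E := by
  refine le_trans (le_of_eq ?_) (hE (N + 1))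
  apply Finset.sum_congr rfl
  intro n hn
  apply Pool.Agent.W455.DyGal.gsum_congr
  intro w hw
  rw [hX0 w (by rw [hw]; have := Finset.mem_range.1 hn; omega)]

theorem gal_bound {N : ℕ} {X : ℝ → Node K → ℝ} {u : Node K → ℝ} {E : ℝ} (hν : 0 < ν) (hμ : 0 < μ)
    (hq : 0 < q) (hX : IsGal ν μ q N X) (hE0 : 0 ≤ E)
    (hX0 : ∀ w, w.length ≤ N → X 0 w = u w) (hE : En u E) {t : ℝ} (ht : 0 ≤ t) (w : Node K) :
    X t w ≤ E + 1 := by
  by_cases hw : w.length ≤ N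
  · exact (energy_bound hν hμ hq hX.toIsPart (gal_en hX0 hE) ht).1 w hw
  · rw [hX.zero t ht w (by omega)]
    linarith

theorem sol_bound {X : ℝ → Node K → ℝ} {u : Node K → ℝ} {E : ℝ} (hν : 0 < ν) (hμ : 0 < μ)
    (hq : 0 < q) (hX : IsSol ν μ q X)
    (hX0 : ∀ w, X 0 w = u w) (hE : En u E) {t : ℝ} (ht : 0 ≤ t) (w : Node K) :
    X t w ≤ E + 1 :=
  (energy_bound hν hμ hq (hX.part w.length) (gal_en (fun w _ => hX0 w) hE) ht).1 w le_rfl

/-- squares controlled by a null sequence -/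
theorem eq_of_sq {x y a : ℝ} {b r : ℝ} (hr0 : 0 ≤ r) (hr : r < 1) {M0 : ℕ}
    (h : ∀ M, M0 ≤ M → (x - y) ^ 2 ≤ a * (r ^ M * b)) : x = y := by
  have h1 : Tendsto (fun M : ℕ => a * (r ^ M * b)) atTop (𝓝 (a * (0 * b))) :=
    ((tendsto_pow_atTop_nhds_zero_of_lt_one hr0 hr).mul_const b).const_mul a
  rw [zero_mul, mul_zero] at h1
  have h2 : (x - y) ^ 2 ≤ 0 :=
    ge_of_tendsto h1 (Filter.eventually_atTop.2 ⟨M0, fun M hM => h M hM⟩)
  have h3 : x - y = 0 := by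
    have := le_antisymm h2 (sq_nonneg _)
    exact pow_eq_zero_iff (two_ne_zero) |>.1 this
  linarith

theorem exists_small {a b r ε : ℝ} (hr0 : 0 ≤ r) (hr : r < 1) (hε : 0 < ε) :
    ∃ M0 : ℕ, ∀ M, M0 ≤ M → a * (r ^ M * b) ≤ ε ^ 2 := by
  have h1 : Tendsto (fun M : ℕ => a * (r ^ M * b)) atTop (𝓝 (a * (0 * b))) :=
    ((tendsto_pow_atTop_nhds_zero_of_lt_one hr0 hr).mul_const b).const_mul a
  rw [zero_mul, mul_zero] at h1
  exact (h1.eventually_le_const (show (0:ℝ) < ε ^ 2 by positivity)).exists_forall_of_atTop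

/-- part 1: rapidly decreasing data -/
theorem part_one (hK : 0 < K) (hν : 0 < ν) (hq : 0 < q) (hμ : 1 < μ) (hA : Adm K q μ)
    {u : Node K → ℝ} (hu : ∀ w, 0 ≤ u w) (hR : Rapid u) :
    ∃ X : ℝ → Node K → ℝ, IsSol ν μ q X ∧ X 0 = u ∧
      (∀ m : ℕ, ∃ C : ℝ, ∀ t, 0 ≤ t → ∀ w, 2 ^ (m * w.length) * X t w ≤ C) ∧
      ∀ Y : ℝ → Node K → ℝ, IsSol ν μ q Y → Y 0 = u → ∀ t, 0 ≤ t → Y t = X t := by
  have hK' : (0:ℝ) < K := by exact_mod_cast hK
  have hμ0 : 0 < μ := by linarith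
  obtain ⟨E, hE⟩ := hR.en hK hu
  have hE0 : 0 ≤ E := by simpa using hE 0
  choose X hX hX0 using fun N => pgal K ν μ q N u hν hμ0 hq hu
  -- uniform decay
  obtain ⟨C, hC0, hC⟩ := hR.bound (show 0 < μ / (2 * q) by positivity)
  obtain ⟨r, hr1, hr2, -, N0, hN0⟩ := inv_exists hK hν hq hμ hA
    (show 0 < 5 * (C + 1) by positivity) (show (1:ℝ) < 2 by norm_num)
  have hr0 : 0 < r := by linarith
  have hs : μ / (2 * q) ≤ μ / (q * r) := by
    apply div_le_div_of_nonneg_left hμ0.le (by positivity)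
    nlinarith
  have hinv : ∀ N, N0 ≤ N → ∀ t, 0 ≤ t → ∀ w, X N t w ≤ 5 * (C + 1) * (μ / (q * r)) ^ w.length := by
    intro N hN
    apply hN0 N hN (X N) (hX N) 0 le_rfl
    intro w
    by_cases hw : w.length ≤ N
    · rw [hX0 N w hw]
      calc u w ≤ C * (μ / (2 * q)) ^ w.length := hC w
        _ ≤ (C + 1) * (μ / (q * r)) ^ w.length := by
            apply mul_le_mul (by linarith) (pow_le_pow_left₀ (by positivity) hs _)
              (by positivity) (by positivity)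
        _ = _ := by ring
    · rw [(hX N).zero 0 le_rfl w (by omega)]
      positivity
  choose B hB0 hB using fun (p : {ρ : ℝ // 0 < ρ}) => hR.bound p.2
  have hdec : ∀ ρ', 0 < ρ' → ∃ A', ∀ N, N0 ≤ N → ∀ t, 0 ≤ t → ∀ w, X N t w ≤ A' * ρ' ^ w.length := by
    intro ρ' hρ'
    classical
    obtain ⟨A', hA'⟩ := pboot0 ν μ q (5 * (C + 1)) (μ / (q * r)) ρ'
      (fun ρ => if h : 0 < ρ then B ⟨ρ, h⟩ else 0) hν hμ hq (by positivity) (by positivity)
      (by
        rw [show q * (μ / (q * r)) = μ / r by field_simp]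
        exact div_lt_self hμ0 hr1) hρ'
    refine ⟨A', fun N hN => ?_⟩
    apply hA' K (X N) 0 ((hX N).sub hq le_rfl) (hinv N hN)
    intro ρ1 hρ1 w
    simp only [hρ1, dif_pos]
    by_cases hw : w.length ≤ N
    · rw [hX0 N w hw]
      exact hB ⟨ρ1, hρ1⟩ w
    · rw [(hX N).zero 0 le_rfl w (by omega)]
      exact mul_nonneg (hB0 _) (by positivity)
  -- the decay rate used for the comparison
  obtain ⟨ρ, hρ⟩ : ∃ ρ, ρ = 1 / (1 + K * q) := ⟨_, rfl⟩
  have hKq : (0:ℝ) < K * q := by positivity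
  have hρ0 : 0 < ρ := by rw [hρ]; positivity
  have hρ1 : ρ ≤ 1 := by rw [hρ, div_le_one (by positivity)]; linarith
  have hρ2 : K * q * ρ ≤ 1 := by
    rw [hρ, mul_one_div, div_le_one (by positivity)]; linarith
  obtain ⟨A0, hA0⟩ := hdec ρ hρ0
  obtain ⟨A, hA'⟩ : ∃ A, A = |A0| := ⟨_, rfl⟩
  have hAnn : 0 ≤ A := by rw [hA']; exact abs_nonneg _
  have hAb : ∀ N, N0 ≤ N → ∀ t, 0 ≤ t → ∀ w, X N t w ≤ A * ρ ^ w.length := by
    intro N hN t ht w
    refine (hA0 N hN t ht w).trans (mul_le_mul_of_nonneg_right ?_ (by positivity))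
    rw [hA']; exact le_abs_self _
  have hAF : ∀ N, N0 ≤ N → ∀ t, 0 ≤ t → ∀ w, X N t w ≤ A := by
    intro N hN t ht w
    refine (hAb N hN t ht w).trans ?_
    calc A * ρ ^ w.length ≤ A * 1 := mul_le_mul_of_nonneg_left (pow_le_one₀ hρ0.le hρ1) hAnn
      _ = A := mul_one A
  -- Cauchy property
  have hcau : ∀ w : Node K, ∀ T : ℝ, 0 < T → ∀ ε : ℝ, 0 < ε → ∃ N0 : ℕ, ∀ N N' : ℕ, N0 ≤ N → N0 ≤ N' → ∀ t : ℝ, 0 ≤ t → t ≤ T →
      |X N t w - X N' t w| ≤ ε := by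
    intro w T hT ε hε
    obtain ⟨M0, hM0⟩ := exists_small (a := 2 ^ w.length)
      (b := q * K * T * (A ^ 2 * A + A ^ 2 * A)) (show (0:ℝ) ≤ 1 / 2 by norm_num)
      (show (1 / 2:ℝ) < 1 by norm_num) hε
    obtain ⟨M, hM⟩ : ∃ M, M = max (max N0 M0) w.length := ⟨_, rfl⟩
    have hM1 : N0 ≤ M := by rw [hM]; exact (le_max_left _ _).trans (le_max_left _ _)
    have hM2 : M0 ≤ M := by rw [hM]; exact (le_max_right _ _).trans (le_max_left _ _)
    have hM3 : w.length ≤ M := by rw [hM]; exact le_max_right _ _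
    refine ⟨M, fun N N' hN hN' t ht htT => ?_⟩
    have h1 := comp_fast hK hν hμ0 hq ((hX N).toIsPart.mono hN) ((hX N').toIsPart.mono hN')
      (fun w hw => by rw [hX0 N w (hw.trans hN), hX0 N' w (hw.trans hN')]) ht hAnn hAnn hρ0 hρ1 hρ2
      (hAb N (hM1.trans hN)) (hAF N' (hM1.trans hN')) hM3
    have h2 : (X N t w - X N' t w) ^ 2 ≤ ε ^ 2 := by
      refine h1.trans (le_trans ?_ (hM0 M hM2))
      apply mul_le_mul_of_nonneg_left _ (by positivity)
      apply mul_le_mul_of_nonneg_left _ (by positivity)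
      apply mul_le_mul_of_nonneg_right _ (by positivity)
      apply mul_le_mul_of_nonneg_left htT (by positivity)
    exact abs_le_of_sq_le_sq h2 hε.le
  obtain ⟨Y, hY, hY0, hlim⟩ := plim K ν μ q E u X hν hμ0 hq hX hX0 hE hcau
  have hYdec : ∀ ρ', 0 < ρ' → ∃ A', ∀ t, 0 ≤ t → ∀ w, Y t w ≤ A' * ρ' ^ w.length := by
    intro ρ' hρ'
    obtain ⟨A', hA'⟩ := hdec ρ' hρ'
    refine ⟨A', fun t ht w => ?_⟩
    exact le_of_tendsto (hlim w t ht) (Filter.eventually_atTop.2 ⟨N0, fun N hN => hA' N hN t ht w⟩)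
  refine ⟨Y, hY, funext hY0, ?_, ?_⟩
  · intro m
    obtain ⟨A', hA'⟩ := hYdec ((1 / 2 : ℝ) ^ m) (by positivity)
    exact ⟨A', fun t ht w => conv_pow m w.length (hA' t ht w)⟩
  · intro Z hZ hZ0 t ht
    funext w
    have hZb : ∀ s, 0 ≤ s → ∀ w, Z s w ≤ E + 1 := fun s hs w =>
      sol_bound hν hμ0 hq hZ (fun w => by rw [hZ0]) hE hs w
    have hYb : ∀ s, 0 ≤ s → ∀ w, Y s w ≤ A * ρ ^ w.length := by
      intro s hs w
      exact le_of_tendsto (hlim w s hs) (Filter.eventually_atTop.2 ⟨N0, fun N hN => hAb N hN s hs w⟩)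
    refine (eq_of_sq (a := 2 ^ w.length)
      (b := q * K * t * (A ^ 2 * (E + 1) + (E + 1) ^ 2 * A)) (show (0:ℝ) ≤ 1 / 2 by norm_num)
      (show (1 / 2:ℝ) < 1 by norm_num) (M0 := w.length) fun M hM => ?_).symm
    exact comp_fast hK hν hμ0 hq (hY.part M) (hZ.part M) (fun w _ => by rw [hY0 w, hZ0]) ht hAnn
      (by linarith) hρ0 hρ1 hρ2 hYb hZb hM

/-- part 2: finite-energy data -/
theorem part_two (hK : 0 < K) (hν : 0 < ν) (hq : 0 < q) (hμ : 1 < μ) (hA : Adm K q μ)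
    (hq1 : q < 2 * μ) (hq2 : q ^ 2 < μ ^ 3)
    {u : Node K → ℝ} (hu : ∀ w, 0 ≤ u w) {E : ℝ} (hE : En u E) :
    ∃ X : ℝ → Node K → ℝ, IsSol ν μ q X ∧ X 0 = u ∧
      (∀ t0, 0 < t0 → ∀ m : ℕ, ∃ C : ℝ, ∀ t, t0 ≤ t → ∀ w, 2 ^ (m * w.length) * X t w ≤ C) ∧
      ∀ Y : ℝ → Node K → ℝ, IsSol ν μ q Y → Y 0 = u → ∀ t, 0 ≤ t → Y t = X t := by
  have hK' : (0:ℝ) < K := by exact_mod_cast hK
  have hμ0 : 0 < μ := by linarith
  have hE0 : 0 ≤ E := by simpa using hE 0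
  choose X hX hX0 using fun N => pgal K ν μ q N u hν hμ0 hq hu
  have hr0 : 0 ≤ q / (2 * μ) := by positivity
  have hr1 : q / (2 * μ) < 1 := by rw [div_lt_one (by positivity)]; exact hq1
  have hcau : ∀ w : Node K, ∀ T : ℝ, 0 < T → ∀ ε : ℝ, 0 < ε → ∃ N0 : ℕ, ∀ N N' : ℕ, N0 ≤ N → N0 ≤ N' → ∀ t : ℝ, 0 ≤ t → t ≤ T →
      |X N t w - X N' t w| ≤ ε := by
    intro w T hT ε hε
    obtain ⟨M0, hM0⟩ := exists_small (a := 2 ^ w.length)
      (b := q * K * (E + 1) * E / ν) hr0 hr1 hε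
    obtain ⟨M, hM⟩ : ∃ M, M = max M0 w.length := ⟨_, rfl⟩
    have hM2 : M0 ≤ M := by rw [hM]; exact le_max_left _ _
    have hM3 : w.length ≤ M := by rw [hM]; exact le_max_right _ _
    refine ⟨M, fun N N' hN hN' t ht htT => ?_⟩
    have h1 := comp_energy hν hμ0 hq ((hX N).toIsPart.mono hN) ((hX N').toIsPart.mono hN')
      (fun w hw => by rw [hX0 N w (hw.trans hN), hX0 N' w (hw.trans hN')]) ht
      (show 0 ≤ E + 1 by linarith) (gal_en (fun w hw => hX0 N w (hw.trans hN)) hE)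
      (fun s hs w => gal_bound hν hμ0 hq (hX N) hE0 (hX0 N) hE hs w)
      (fun s hs w => gal_bound hν hμ0 hq (hX N') hE0 (hX0 N') hE hs w) hM3
    exact abs_le_of_sq_le_sq (h1.trans (hM0 M hM2)) hε.le
  obtain ⟨Y, hY, hY0, hlim⟩ := plim K ν μ q E u X hν hμ0 hq hX hX0 hE hcau
  refine ⟨Y, hY, funext hY0, ?_, ?_⟩
  · intro t0 ht0 m
    -- the bound at a good time
    obtain ⟨τ, hτ⟩ : ∃ τ, τ = t0 / 2 := ⟨_, rfl⟩
    have hτ0 : 0 < τ := by rw [hτ]; positivity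
    obtain ⟨D, hD⟩ : ∃ D, D = E / (2 * ν) / τ + 1 := ⟨_, rfl⟩
    have hD1 : 1 ≤ D := by
      rw [hD]
      have : 0 ≤ E / (2 * ν) / τ := by positivity
      linarith
    obtain ⟨rb, hrb⟩ : ∃ rb, rb = Real.sqrt (μ ^ 3) / q := ⟨_, rfl⟩
    have hrb1 : 1 < rb := by
      rw [hrb, one_lt_div hq]
      exact Real.lt_sqrt_of_sq_lt hq2
    have hrb2 : (q * rb) ^ 2 = μ ^ 3 := by
      rw [hrb, mul_div_cancel₀ _ hq.ne', Real.sq_sqrt (by positivity)]
    obtain ⟨r, hr1, hr2, hrrb, N0, hN0⟩ := inv_exists hK hν hq hμ hA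
      (show 0 < 5 * D by positivity) hrb1
    have hr0 : 0 < r := by linarith
    have hs : 1 ≤ μ * (μ / (q * r)) ^ 2 := by
      rw [div_pow, mul_div_assoc', one_le_div (by positivity)]
      calc (q * r) ^ 2 ≤ (q * rb) ^ 2 :=
            pow_le_pow_left₀ (by positivity) (mul_le_mul_of_nonneg_left hrrb hq.le) 2
        _ = μ * μ ^ 2 := by rw [hrb2]; ring
    have hgood : ∀ N, ∃ s, 0 ≤ s ∧ s ≤ τ ∧ ∀ w, X N s w ≤ 5 * D / 5 * (μ / (q * r)) ^ w.length := by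
      intro N
      obtain ⟨f, hf⟩ : ∃ f : ℝ → ℝ, f = fun s => ∑ n ∈ range (N + 1), μ ^ n *
        gsum n (fun w => X N s w ^ 2) := ⟨_, rfl⟩
      have hfc : ContinuousOn f (Set.Ici 0) := by
        rw [hf]
        exact continuousOn_finsetSum _ fun n _ => continuousOn_const.mul
          (sq_cont (hX N).toIsPart n)
      have hint : ∫ s in (0:ℝ)..τ, f s ≤ E / (2 * ν) := by
        rw [hf]
        exact (energy_bound hν hμ0 hq (hX N).toIsPart (gal_en (hX0 N) hE) hτ0.le).2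
      obtain ⟨s, hs1, hs2⟩ := isCompact_Icc.exists_isMinOn (Set.nonempty_Icc.2 hτ0.le)
        (hfc.mono fun s (hs : s ∈ Set.Icc 0 τ) => hs.1)
      have h1 : f s * τ ≤ E / (2 * ν) := by
        calc f s * τ = ∫ _s in (0:ℝ)..τ, f s := by simp; ring
          _ ≤ ∫ s in (0:ℝ)..τ, f s := by
              apply intervalIntegral.integral_mono_on hτ0.le intervalIntegrable_const
                (intervalIntegrable_of_cont hfc hτ0.le)
              intro s' hs'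
              exact hs2 hs'
          _ ≤ _ := hint
      have h2 : f s ≤ D := by
        rw [hD]
        have : f s ≤ E / (2 * ν) / τ := by rw [le_div_iff₀ hτ0]; exact h1
        linarith
      refine ⟨s, hs1.1, hs1.2, fun w => ?_⟩
      by_cases hw : w.length ≤ N
      · have hnn : ∀ n, 0 ≤ gsum n (fun w => X N s w ^ 2) := fun n =>
          Pool.Agent.W455.DyGal.gsum_nonneg _ _ fun w => sq_nonneg _
        have h3 : μ ^ w.length * gsum w.length (fun w => X N s w ^ 2) ≤ f s := by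
          rw [hf]
          exact Finset.single_le_sum (f := fun n => μ ^ n * gsum n (fun w => X N s w ^ 2))
            (fun n _ => mul_nonneg (by positivity) (hnn n)) (Finset.mem_range.2 (by omega))
        have h4 : X N s w ^ 2 ≤ gsum w.length (fun w => X N s w ^ 2) :=
          Pool.Agent.W455.DyGal.le_gsum w (fun w => X N s w ^ 2) fun w => sq_nonneg _
        have h5 : μ ^ w.length * X N s w ^ 2 ≤ D :=
          (mul_le_mul_of_nonneg_left h4 (by positivity)).trans (h3.trans h2)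
        have h6 : μ ^ w.length * X N s w ^ 2 ≤ μ ^ w.length * (D * (μ / (q * r)) ^ w.length) ^ 2 := by
          calc μ ^ w.length * X N s w ^ 2 ≤ D := h5
            _ ≤ D ^ 2 * 1 := by nlinarith
            _ ≤ D ^ 2 * (μ * (μ / (q * r)) ^ 2) ^ w.length :=
                mul_le_mul_of_nonneg_left (one_le_pow₀ hs) (by positivity)
            _ = _ := by rw [mul_pow, mul_pow, ← pow_mul, ← pow_mul, mul_comm 2]; ring
        have h7 : X N s w ^ 2 ≤ (D * (μ / (q * r)) ^ w.length) ^ 2 :=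
          le_of_mul_le_mul_left h6 (by positivity)
        have h8 := abs_le_of_sq_le_sq h7 (by positivity)
        rw [mul_div_cancel_left₀ D (by norm_num : (5:ℝ) ≠ 0)]
        exact (le_abs_self _).trans h8
      · rw [(hX N).zero s hs1.1 w (by omega)]
        positivity
    have hinv : ∀ N, N0 ≤ N → ∀ t, τ ≤ t → ∀ w, X N t w ≤ 5 * D * (μ / (q * r)) ^ w.length := by
      intro N hN t ht w
      obtain ⟨s, hs0, hsτ, hsw⟩ := hgood N
      exact hN0 N hN (X N) (hX N) s hs0 hsw t (hsτ.trans ht) w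
    obtain ⟨A', hA'⟩ := pboot ν μ q (5 * D) (μ / (q * r)) τ ((1 / 2 : ℝ) ^ m) hν hμ hq
      (by positivity) (by positivity)
      (by
        rw [show q * (μ / (q * r)) = μ / r by field_simp]
        exact div_lt_self hμ0 hr1) hτ0 (by positivity)
    refine ⟨A', fun t ht w => conv_pow m w.length ?_⟩
    have ht' : 0 ≤ t := by linarith
    refine le_of_tendsto (hlim w t ht') (Filter.eventually_atTop.2 ⟨N0, fun N hN => ?_⟩)
    exact hA' K (X N) τ ((hX N).sub hq hτ0.le) (hinv N hN) t (by linarith) w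
  · intro Z hZ hZ0 t ht
    funext w
    refine (eq_of_sq (a := 2 ^ w.length)
      (b := q * K * (E + 1) * E / ν) hr0 hr1 (M0 := w.length) fun M hM => ?_).symm
    exact comp_energy hν hμ0 hq (hY.part M) (hZ.part M) (fun w _ => by rw [hY0 w, hZ0]) ht
      (by linarith) (gal_en (fun w _ => hY0 w) hE)
      (fun s hs w => sol_bound hν hμ0 hq hY hY0 hE hs w)
      (fun s hs w => sol_bound hν hμ0 hq hZ (fun w => by rw [hZ0]) hE hs w) hM

end Pool.Agent.W268.Dy
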