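import Pool.Agent.W268.Dy.Pert
import Pool.Agent.W268.Dy.Exit
import Pool.Agent.W268.Dy.Stm

/-! Invariance of the polygon region for Galerkin solutions of the tree model -/

namespace Pool.Agent.W268.Dy

open Set Filter Topology

variable {K : ℕ}

/-- rescaled variable -/
noncomputable def sc (M s : ℝ) (X : Node K → ℝ) (w : Node K) : ℝ := X w / (M * s ^ w.length)

/-- rescaled parent, zero at the root -/
noncomputable def par (M s : ℝ) (X : Node K → ℝ) : Node K → ℝ
  | [] => 0
  | _ :: u => sc M s X u

/-- average of the rescaled children -/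
noncomputable def avg (M s : ℝ) (X : Node K → ℝ) (w : Node K) : ℝ :=
  (∑ c : Fin K, sc M s X (c :: w)) / K

/-- speed of generation `n` -/
noncomputable def Cn (K : ℕ) (q M s : ℝ) (n : ℕ) : ℝ := K * M * (q * s) ^ (n + 1)

theorem rhs_scaled (hK : 0 < K) {ν μ q M s : ℝ} (hq : 0 < q) (hM : 0 < M) (hs : 0 < s)
    (X : Node K → ℝ) (w : Node K) :
    rhs ν μ q X w / (M * s ^ w.length) =
      Cn K q M s w.length * (1 / (K * q * s ^ 3) * par M s X w ^ 2 - sc M s X w * avg M s X w
        - ν * μ ^ w.length / Cn K q M s w.length * sc M s X w) := by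
  have hK' : (0:ℝ) < K := by exact_mod_cast hK
  have hC : 0 < Cn K q M s w.length := by unfold Cn; positivity
  have h1 : Cn K q M s w.length * (ν * μ ^ w.length / Cn K q M s w.length * sc M s X w)
      = ν * μ ^ w.length * X w / (M * s ^ w.length) := by
    unfold sc; field_simp
  have h2 : Cn K q M s w.length * (sc M s X w * avg M s X w)
      = q ^ (w.length + 1) * X w * (∑ c : Fin K, X (c :: w)) / (M * s ^ w.length) := by
    have : avg M s X w = (∑ c : Fin K, X (c :: w)) / (M * s ^ (w.length + 1)) / K := by
      unfold avg sc
      simp only [List.length_cons, ← Finset.sum_div]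
    rw [this]
    unfold sc Cn
    rw [mul_pow]
    field_simp
  have h3 : Cn K q M s w.length * (1 / (K * q * s ^ 3) * par M s X w ^ 2)
      = gain q X w / (M * s ^ w.length) := by
    cases w with
    | nil => simp [par, gain]
    | cons c u =>
      simp only [par, gain, sc, Cn, List.length_cons]
      rw [mul_pow]
      field_simp
      ring
  rw [mul_sub, mul_sub, h1, h2, h3]
  unfold rhs
  ring

theorem Cn_succ (K : ℕ) (q M s : ℝ) (n : ℕ) : Cn K q M s (n + 1) = (q * s) * Cn K q M s n := by
  unfold Cn; ring

/-- the invariance theorem -/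
theorem invariance (hK : 0 < K) {ν μ q θ c r B M G g0 : ℝ} {J : ℕ} {H e σ : Fin J → ℝ}
    (hν : 0 < ν) (hq : 0 < q) (hM : 0 < M)
    (R : RegOK μ θ c G g0 H e σ) (hθ : θ = q ^ 2 / (K * μ ^ 3))
    (S : Small μ θ c r (μ / r) (θ * r ^ 3) (ν * r / (K * M * μ)) B H)
    {N : ℕ} (hN : 5 * (K * M * μ) ≤ ν * r ^ (N + 1))
    {X : ℝ → Node K → ℝ} (hX : IsGal ν μ q N X) {T0 : ℝ} (hT0 : 0 ≤ T0)
    (hini : ∀ w, X T0 w ≤ M / 5 * (μ / (q * r)) ^ w.length) :
    ∀ t, T0 ≤ t → ∀ w, X t w ≤ M * (μ / (q * r)) ^ w.length := by
  classical
  have hμ := S.hμ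
  have hr : 0 < r := by linarith [S.hr1]
  obtain ⟨s, hs⟩ : ∃ s, s = μ / (q * r) := ⟨_, rfl⟩
  have hs0 : 0 < s := by rw [hs]; positivity
  have hK' : (0:ℝ) < K := by exact_mod_cast hK
  have hqs : q * s = μ / r := by rw [hs]; field_simp
  rw [← hs] at hini ⊢
  -- the viscosity coefficients
  obtain ⟨vis, hvis⟩ : ∃ vis : ℕ → ℝ, vis = fun n => ν * μ ^ n / Cn K q M s n := ⟨_, rfl⟩
  have hCpos : ∀ n, 0 < Cn K q M s n := fun n => by unfold Cn; positivity
  have hvn : ∀ n, vis n = ν * r ^ (n + 1) / (K * M * μ) := by
    intro n
    rw [hvis]
    simp only [Cn, hqs, div_pow]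
    field_simp
    ring
  have hvis0 : ∀ n, 0 < vis n := fun n => by rw [hvn]; positivity
  have hvge : ∀ n, ν * r / (K * M * μ) ≤ vis n := by
    intro n
    rw [hvn]
    apply div_le_div_of_nonneg_right _ (by positivity)
    apply mul_le_mul_of_nonneg_left _ hν.le
    calc r = r ^ 1 := (pow_one r).symm
      _ ≤ r ^ (n + 1) := pow_le_pow_right₀ S.hr1.le (by omega)
  have hvsucc : ∀ n, vis (n + 1) = r * vis n := by
    intro n; rw [hvn, hvn]; field_simp; ring
  have hvN : 5 ≤ vis N := by
    rw [hvn, le_div_iff₀ (by positivity)]
    exact hN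
  have hθ' : 1 / (K * q * s ^ 3) = θ * r ^ 3 := by
    rw [hs, hθ]; field_simp
  obtain ⟨x, hx⟩ : ∃ x : ℝ → Node K → ℝ, x = fun t w => sc M s (X t) w := ⟨_, rfl⟩
  have hx0 : ∀ t, 0 ≤ t → ∀ w, 0 ≤ x t w := by
    intro t ht w
    rw [hx]
    exact div_nonneg (hX.nonneg t ht w) (by positivity)
  have hxzero : ∀ t, 0 ≤ t → ∀ w : Node K, N < w.length → x t w = 0 := by
    intro t ht w hw
    rw [hx]; simp only [sc]
    rw [hX.zero t ht w hw, zero_div]
  have hxcont : ∀ w, ContinuousOn (fun t => x t w) (Ici 0) := by
    intro w
    rw [hx]; simp only [sc]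
    exact (hX.cont w).div_const _
  have hxder : ∀ w : Node K, w.length ≤ N → ∀ t, 0 < t → HasDerivAt (fun t => x t w)
      (Cn K q M s w.length * (θ * r ^ 3 * par M s (X t) w ^ 2 - x t w * avg M s (X t) w
        - vis w.length * x t w)) t := by
    intro w hw t ht
    have h1 := (hX.ode w hw t ht).div_const (M * s ^ w.length)
    rw [rhs_scaled hK hq hM hs0, hθ'] at h1
    rw [hx, hvis]
    exact h1
  -- index set
  haveI : Finite {w : Node K // w.length ≤ N} := (List.finite_length_le (Fin K) N).to_subtype
  let W := {w : Node K // w.length ≤ N}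
  let f : (Unit ⊕ (W ⊕ ((W × Fin K) ⊕ (W × Fin K × Fin J)))) → ℝ → ℝ := fun i t =>
    match i with
    | Sum.inl _ => x t [] - 1 / 4
    | Sum.inr (Sum.inl w) => x t w.1 - 1
    | Sum.inr (Sum.inr (Sum.inl p)) => x t (p.2 :: p.1.1) - (g0 + G * x t p.1.1)
    | Sum.inr (Sum.inr (Sum.inr p)) =>
        (H p.2.2 * x t p.1.1 - e p.2.2 - σ p.2.2 * vis p.1.1.length) - x t (p.2.1 :: p.1.1)
  have hfin : ∀ b, ∀ t ∈ Icc T0 b, ∀ i, f i t ≤ 0 := by
    intro b
    apply first_exit f T0 b
    · -- continuity
      have hsub : Icc T0 b ⊆ Ici (0:ℝ) := fun t ht => hT0.trans ht.1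
      have hc : ∀ w, ContinuousOn (fun t => x t w) (Icc T0 b) := fun w => (hxcont w).mono hsub
      rintro (_ | w | p | p)
      · exact (hc []).sub continuousOn_const
      · exact (hc w.1).sub continuousOn_const
      · exact (hc _).sub (continuousOn_const.add (continuousOn_const.mul (hc _)))
      · exact (((continuousOn_const.mul (hc _)).sub continuousOn_const).sub
          continuousOn_const).sub (hc _)
    · -- initial values
      have hi : ∀ w, x T0 w ≤ 1 / 5 := by
        intro w
        rw [hx]; simp only [sc]
        rw [div_le_iff₀ (by positivity)]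
        have := hini w
        linarith
      have hi0 := hx0 T0 hT0
      rintro (_ | w | p | p)
      · show x T0 [] - 1 / 4 < 0
        linarith [hi []]
      · show x T0 w.1 - 1 < 0
        linarith [hi w.1]
      · show x T0 (p.2 :: p.1.1) - (g0 + G * x T0 p.1.1) < 0
        have h1 := mul_nonneg R.hG (hi0 p.1.1)
        linarith [hi (p.2 :: p.1.1), R.hg0]
      · show (H p.2.2 * x T0 p.1.1 - e p.2.2 - σ p.2.2 * vis p.1.1.length) - x T0 (p.2.1 :: p.1.1) < 0
        have h1 : H p.2.2 * x T0 p.1.1 ≤ H p.2.2 * (1 / 5) :=
          mul_le_mul_of_nonneg_left (hi _) (R.hH _)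
        have h2 := R.he p.2.2
        have h3 : 0 ≤ σ p.2.2 * vis p.1.1.length :=
          mul_nonneg (by linarith [R.hσ p.2.2]) (hvis0 _).le
        linarith [hi0 (p.2.1 :: p.1.1)]
    · -- derivative at an exit time
      intro t ht _ hall
      have ht0 : 0 ≤ t := hT0.trans ht.le
      have htp : 0 < t := lt_of_le_of_lt hT0 ht
      have hnn := hx0 t ht0
      have hroot : x t [] ≤ 1 / 4 := by
        have := hall (Sum.inl ()); simp only [f] at this; linarith
      have hone : ∀ w : Node K, x t w ≤ 1 := by
        intro w
        by_cases hw : w.length ≤ N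
        · have := hall (Sum.inr (Sum.inl ⟨w, hw⟩)); simp only [f] at this; linarith
        · rw [hxzero t ht0 w (by omega)]; norm_num
      have hup : ∀ (w : Node K) (c : Fin K), x t (c :: w) ≤ g0 + G * x t w := by
        intro w c
        by_cases hw : w.length ≤ N
        · have := hall (Sum.inr (Sum.inr (Sum.inl (⟨w, hw⟩, c)))); simp only [f] at this; linarith
        · rw [hxzero t ht0 (c :: w) (by simp; omega)]
          have := mul_nonneg R.hG (hnn w)
          linarith [R.hg0]
      have hlow : ∀ (w : Node K) (c : Fin K) (k : Fin J), w.length ≤ N →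
          H k * x t w - e k - σ k * vis w.length ≤ x t (c :: w) := by
        intro w c k hw
        have := hall (Sum.inr (Sum.inr (Sum.inr (⟨w, hw⟩, c, k)))); simp only [f] at this; linarith
      -- averages
      have havg0 : ∀ w, 0 ≤ avg M s (X t) w := by
        intro w
        apply div_nonneg _ hK'.le
        apply Finset.sum_nonneg
        intro c _
        have := hnn (c :: w); rw [hx] at this; exact this
      have havg_le : ∀ (w : Node K) (y : ℝ), (∀ c, x t (c :: w) ≤ y) → avg M s (X t) w ≤ y := by
        intro w y h
        unfold avg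
        rw [div_le_iff₀ hK']
        calc ∑ c : Fin K, sc M s (X t) (c :: w) ≤ ∑ _c : Fin K, y := by
              apply Finset.sum_le_sum
              intro c _
              have := h c; rw [hx] at this; exact this
          _ = y * K := by simp [mul_comm]
      have havg_ge : ∀ (w : Node K) (y : ℝ), (∀ c, y ≤ x t (c :: w)) → y ≤ avg M s (X t) w := by
        intro w y h
        unfold avg
        rw [le_div_iff₀ hK']
        calc y * K = ∑ _c : Fin K, y := by simp [mul_comm]
          _ ≤ ∑ c : Fin K, sc M s (X t) (c :: w) := by
              apply Finset.sum_le_sum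
              intro c _
              have := h c; rw [hx] at this; exact this
      -- parents
      have hpar0 : ∀ w, 0 ≤ par M s (X t) w := by
        intro w
        cases w with
        | nil => simp [par]
        | cons c u => have := hnn u; rw [hx] at this; exact this
      have hpar1 : ∀ w, par M s (X t) w ≤ 1 := by
        intro w
        cases w with
        | nil => simp [par]
        | cons c u => have := hone u; rw [hx] at this; exact this
      have hparup : ∀ w, x t w ≤ g0 + G * par M s (X t) w := by
        intro w
        cases w with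
        | nil =>
          simp only [par, mul_zero, add_zero]
          linarith [R.hg0]
        | cons c u => have := hup u c; rw [hx] at this ⊢; exact this
      have hparlow : ∀ (w : Node K) (l : Fin J), w.length ≤ N →
          H l * par M s (X t) w - e l - σ l * (vis w.length / r) ≤ x t w := by
        intro w l hw
        cases w with
        | nil =>
          simp only [par, mul_zero]
          have h1 : 0 ≤ σ l * (vis ([] : Node K).length / r) :=
            mul_nonneg (by linarith [R.hσ l]) (div_nonneg (hvis0 _).le hr.le)
          have h2 : 0 < e l := by linarith [R.he l, R.hH l]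
          linarith [hnn []]
        | cons c u =>
          simp only [List.length_cons] at hw ⊢
          have h1 := hlow u c l (by omega)
          rw [hvsucc, mul_div_cancel_left₀ _ hr.ne']
          rw [hx] at h1 ⊢
          exact h1
      have hκ0 := S.hκ0
      rintro (_ | w | p | p) h0
      · -- root
        simp only [f] at h0
        refine ⟨_, ?_, (hxder [] (by simp) t htp).sub_const _⟩
        have hx4 : x t [] = 1 / 4 := by linarith
        simp only [par]
        rw [hx4]
        apply mul_neg_of_pos_of_neg (hCpos _)
        have h1 := havg0 ([] : Node K)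
        have h2 := hvis0 ([] : Node K).length
        nlinarith
      · -- upper bound 1
        simp only [f] at h0
        refine ⟨_, ?_, (hxder w.1 w.2 t htp).sub_const _⟩
        have hx1 : x t w.1 = 1 := by linarith
        rw [hx1]
        apply mul_neg_of_pos_of_neg (hCpos _)
        have h1 := S.al1 R (hpar0 w.1) (hpar1 w.1) (havg0 w.1) (hvge w.1.length) (by
          intro k
          apply havg_ge
          intro c
          have := hlow w.1 c k w.2
          rw [hx1] at this
          linarith)
        linarith
      · -- upper line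
        obtain ⟨⟨w, hw⟩, c⟩ := p
        simp only [f] at h0
        have hyeq : x t (c :: w) = g0 + G * x t w := by linarith
        have hwN : w.length < N := by
          by_contra hcon
          have hz := hxzero t ht0 (c :: w) (by simp; omega)
          have := mul_nonneg R.hG (hnn w)
          rw [hz] at hyeq
          linarith [R.hg0]
        have hd1 := hxder (c :: w) (by simp; omega) t htp
        have hd2 := hxder w hw t htp
        refine ⟨_, ?_, hd1.sub (((hd2.const_mul G)).const_add g0)⟩
        simp only [List.length_cons, Cn_succ, hqs, hvsucc]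
        have hparc : par M s (X t) (c :: w) = x t w := by rw [hx]; rfl
        rw [hparc, hyeq]
        have h1 := S.al2 R (hpar0 w) (hpar1 w) (hnn w) (hone w) (havg0 (c :: w))
          (havg_le (c :: w) 1 (fun c' => hone _)) (hvge w.length) (hparup w)
          (by rw [← hyeq]; exact hone _) (by
            intro k
            apply havg_ge
            intro c'
            have := hlow (c :: w) c' k (by simp; omega)
            rw [hyeq] at this
            simp only [List.length_cons, hvsucc] at this
            linarith)
        have h2 : avg M s (X t) w ≤ g0 + G * x t w := havg_le w _ (fun c' => hup w c')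
        have h3 : G * (x t w * avg M s (X t) w) ≤ G * (x t w * (g0 + G * x t w)) :=
          mul_le_mul_of_nonneg_left (mul_le_mul_of_nonneg_left h2 (hnn w)) R.hG
        have hC := hCpos w.length
        have key : μ / r * Cn K q M s w.length * (θ * r ^ 3 * x t w ^ 2
              - (g0 + G * x t w) * avg M s (X t) (c :: w) - r * vis w.length * (g0 + G * x t w))
            - G * (Cn K q M s w.length * (θ * r ^ 3 * par M s (X t) w ^ 2
              - x t w * avg M s (X t) w - vis w.length * x t w))
            = Cn K q M s w.length * (μ / r * (θ * r ^ 3 * x t w ^ 2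
              - (g0 + G * x t w) * avg M s (X t) (c :: w) - r * vis w.length * (g0 + G * x t w))
              - G * (θ * r ^ 3 * par M s (X t) w ^ 2
              - x t w * avg M s (X t) w - vis w.length * x t w)) := by ring
        rw [key]
        apply mul_neg_of_pos_of_neg hC
        nlinarith
      · -- lower line
        obtain ⟨⟨w, hw⟩, c, k⟩ := p
        simp only [f] at h0
        have hyeq : x t (c :: w) = H k * x t w - e k - σ k * vis w.length := by linarith
        have hwN : w.length < N := by
          by_contra hcon
          have hz := hxzero t ht0 (c :: w) (by simp; omega)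
          have hwe : w.length = N := by omega
          rw [hz, hwe] at hyeq
          have h1 : H k * x t w ≤ H k * 1 := mul_le_mul_of_nonneg_left (hone w) (R.hH k)
          have h2 : 1 / 4 * vis N ≤ σ k * vis N :=
            mul_le_mul_of_nonneg_right (R.hσ k) (hvis0 N).le
          linarith [R.he1 k]
        have hd1 := hxder (c :: w) (by simp; omega) t htp
        have hd2 := hxder w hw t htp
        refine ⟨_, ?_, (((hd2.const_mul (H k)).sub_const (e k)).sub_const
          (σ k * vis w.length)).sub hd1⟩
        simp only [List.length_cons, Cn_succ, hqs, hvsucc]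
        have hparc : par M s (X t) (c :: w) = x t w := by rw [hx]; rfl
        rw [hparc]
        obtain ⟨y, hy⟩ : ∃ y, y = x t (c :: w) := ⟨_, rfl⟩
        rw [← hy] at hyeq ⊢
        have h1 := S.al3 R k (hpar0 w) (hpar1 w) (hnn w) (hone w) (havg0 (c :: w))
          (havg_le (c :: w) 1 (fun c' => hone _)) (hvge w.length) hyeq (by rw [hy]; exact hnn _)
          (havg_le (c :: w) _ (fun c' => by rw [hy]; exact hup (c :: w) c'))
          (fun l => hparlow w l hw) (fun l => by rw [hy]; exact hlow w c l hw)
        have h2 : y ≤ avg M s (X t) w := by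
          apply havg_ge
          intro c'
          have := hlow w c' k hw
          linarith
        have h3 : H k * (x t w * y) ≤ H k * (x t w * avg M s (X t) w) :=
          mul_le_mul_of_nonneg_left (mul_le_mul_of_nonneg_left h2 (hnn w)) (R.hH k)
        have hC := hCpos w.length
        have key : H k * (Cn K q M s w.length * (θ * r ^ 3 * par M s (X t) w ^ 2
              - x t w * avg M s (X t) w - vis w.length * x t w))
            - μ / r * Cn K q M s w.length * (θ * r ^ 3 * x t w ^ 2
              - y * avg M s (X t) (c :: w) - r * vis w.length * y)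
            = Cn K q M s w.length * (H k * (θ * r ^ 3 * par M s (X t) w ^ 2
              - x t w * avg M s (X t) w - vis w.length * x t w)
              - μ / r * (θ * r ^ 3 * x t w ^ 2
              - y * avg M s (X t) (c :: w) - r * vis w.length * y)) := by ring
        rw [key]
        apply mul_neg_of_pos_of_neg hC
        nlinarith
  intro t ht w
  have ht0 : 0 ≤ t := hT0.trans ht
  by_cases hw : w.length ≤ N
  · have h1 := hfin t t ⟨ht, le_rfl⟩ (Sum.inr (Sum.inl ⟨w, hw⟩))
    simp only [f] at h1
    have h2 : x t w ≤ 1 := by linarith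
    rw [hx] at h2
    simp only [sc] at h2
    rw [div_le_one (by positivity)] at h2
    exact h2
  · rw [hX.zero t ht0 w (by omega)]
    positivity

end Pool.Agent.W268.Dy
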