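import Pool.Agent.W268.Dy.Reg

/-! Perturbation of the exact inequalities -/

namespace Pool.Agent.W268.Dy

structure Small (μ θ c r κ θ' v0 B : ℝ) {J : ℕ} (H : Fin J → ℝ) : Prop where
  hμ : 0 < μ
  hθ0 : 0 ≤ θ
  hθ1 : θ ≤ 1
  hc : 0 < c
  hr1 : 1 < r
  hr2 : r ≤ 2
  hκ : κ * r = μ
  hθ' : θ' = θ * r ^ 3
  hv0 : 0 < v0
  hB1 : 1 ≤ B
  hB : ∀ k, H k ≤ B
  s1 : 10 * (μ * (r - 1)) ≤ c * v0
  s2 : 10 * (μ * (r - 1)) ≤ c
  s3 : 8 * (B * (r - 1)) ≤ c * v0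

variable {μ θ c r κ θ' v0 B G g0 : ℝ} {J : ℕ} {H e σ : Fin J → ℝ}

theorem Small.hκ0 (S : Small μ θ c r κ θ' v0 B H) : 0 < κ := by
  have h := S.hκ
  have hr : 0 < r := by linarith [S.hr1]
  have : κ = μ / r := by field_simp; linarith
  rw [this]; exact div_pos S.hμ hr

theorem Small.hθθ (S : Small μ θ c r κ θ' v0 B H) : θ' ≤ θ + 7 * (r - 1) := by
  rw [S.hθ']
  have h1 := S.hr1
  have h2 := S.hr2
  have h3 : r ^ 3 - 1 ≤ 7 * (r - 1) := by nlinarith [mul_nonneg (sub_nonneg.2 h1.le) (sub_nonneg.2 h2)]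
  have h4 : θ * (r ^ 3 - 1) ≤ 1 * (r ^ 3 - 1) := by
    apply mul_le_mul_of_nonneg_right S.hθ1
    nlinarith [mul_nonneg (sub_nonneg.2 h1.le) (sub_nonneg.2 h1.le)]
  linarith

theorem Small.hθge (S : Small μ θ c r κ θ' v0 B H) : θ ≤ θ' := by
  rw [S.hθ']
  have h1 := S.hr1
  have : 1 ≤ r ^ 3 := one_le_pow₀ h1.le
  nlinarith [S.hθ0]

theorem Small.al1 (S : Small μ θ c r κ θ' v0 B H) (R : RegOK μ θ c G g0 H e σ) {w A v : ℝ}
    (hw : 0 ≤ w) (hw1 : w ≤ 1) (hA : 0 ≤ A) (hv : v0 ≤ v)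
    (h : ∀ k, H k - e k - σ k * v ≤ A) : θ' * w ^ 2 - A - v < 0 := by
  have hv0 := S.hv0
  have h1 := R.E1 A v hA (by linarith) h
  have h2 : w ^ 2 ≤ 1 := pow_le_one₀ hw hw1
  have h3 := S.hθθ
  have h4 : θ' * w ^ 2 ≤ θ' := mul_le_of_le_one_right (S.hθ0.trans S.hθge) h2
  have h5 : B * (r - 1) ≥ 1 * (r - 1) :=
    mul_le_mul_of_nonneg_right S.hB1 (by linarith [S.hr1])
  have h6 := S.s3
  have h7 : c * v0 ≤ c * v := mul_le_mul_of_nonneg_left hv S.hc.le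
  have h8 := S.hr1
  linarith

theorem Small.al2 (S : Small μ θ c r κ θ' v0 B H) (R : RegOK μ θ c G g0 H e σ) {w x z v : ℝ}
    (hw : 0 ≤ w) (hw1 : w ≤ 1) (hx : 0 ≤ x) (hx1 : x ≤ 1) (hz : 0 ≤ z) (hz1 : z ≤ 1)
    (hv : v0 ≤ v) (hgw : x ≤ g0 + G * w) (hy1 : g0 + G * x ≤ 1)
    (h : ∀ k, H k * (g0 + G * x) - e k - σ k * (r * v) ≤ z) :
    0 < κ * ((g0 + G * x) * z + r * v * (g0 + G * x) - θ' * x ^ 2)
      + G * (θ' * w ^ 2 - x * ((g0 + G * x) + v)) := by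
  have hv0 := S.hv0
  have hvpos : 0 < v := by linarith
  have hr1 := S.hr1
  have hrv : 0 ≤ (r - 1) * v := mul_nonneg (by linarith) hvpos.le
  obtain ⟨y, hy⟩ : ∃ y, y = g0 + G * x := ⟨_, rfl⟩
  have hy0 : 0 ≤ y := by
    rw [hy]
    have := mul_nonneg R.hG hx
    linarith [R.hg0]
  have hE := R.E2 w x (z + (r - 1) * v) v hw hw1 hx hx1 (by linarith) hvpos.le hgw hy1 (by
    intro k
    have h1 := h k
    have h2 : σ k * ((r - 1) * v) ≤ 1 * ((r - 1) * v) := mul_le_mul_of_nonneg_right (R.hσ1 k) hrv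
    nlinarith)
  rw [← hy] at hE hy1 ⊢
  have hθ'0 : 0 ≤ θ' := S.hθ0.trans S.hθge
  have hx2 : x ^ 2 ≤ 1 := pow_le_one₀ hx hx1
  have hx20 : 0 ≤ x ^ 2 := sq_nonneg x
  have hw20 : 0 ≤ w ^ 2 := sq_nonneg w
  obtain ⟨a, ha⟩ : ∃ a, a = μ * (r - 1) := ⟨_, rfl⟩
  have ha0 : 0 < a := by rw [ha]; exact mul_pos S.hμ (by linarith)
  have s1 := S.s1
  have s2 := S.s2
  rw [← ha] at s1 s2
  -- κ facts
  have hκ0 := S.hκ0
  have hκr := S.hκ
  have k1 : μ - κ ≤ a := by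
    rw [ha, ← hκr]; nlinarith [mul_pos hκ0 (sub_pos.2 hr1)]
  have k2 : (μ - κ) * (y * z) ≤ a := by
    have h1 : y * z ≤ 1 := by nlinarith
    have h2 : 0 ≤ y * z := mul_nonneg hy0 hz
    calc (μ - κ) * (y * z) ≤ a * (y * z) := mul_le_mul_of_nonneg_right k1 h2
      _ ≤ a * 1 := mul_le_mul_of_nonneg_left h1 ha0.le
      _ = a := mul_one a
  have k3 : (μ - κ) * (r * v * y) ≤ a * v := by
    have h1 : (μ - κ) * r = a := by rw [ha, ← hκr]; ring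
    have h2 : (μ - κ) * (r * v * y) = a * (v * y) := by rw [← h1]; ring
    rw [h2]
    apply mul_le_mul_of_nonneg_left _ ha0.le
    nlinarith
  have k4 : (κ * θ' - μ * θ) * x ^ 2 ≤ 3 * a := by
    have h1 : κ * θ' - μ * θ = θ * (μ * (r - 1)) * (r + 1) := by
      rw [S.hθ', ← hκr]; ring
    have h2 : κ * θ' - μ * θ ≤ 3 * a := by
      rw [h1, ← ha]
      have : θ * a ≤ 1 * a := mul_le_mul_of_nonneg_right S.hθ1 ha0.le
      have h3 : 0 ≤ θ * a := mul_nonneg S.hθ0 ha0.le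
      have h4 := S.hr2
      nlinarith
    have h3 : 0 ≤ κ * θ' - μ * θ := by
      rw [h1, ← ha]
      exact mul_nonneg (mul_nonneg S.hθ0 ha0.le) (by linarith)
    calc (κ * θ' - μ * θ) * x ^ 2 ≤ (κ * θ' - μ * θ) * 1 := mul_le_mul_of_nonneg_left hx2 h3
      _ ≤ 3 * a := by linarith
  have k5 : G * ((θ - θ') * w ^ 2) ≤ 0 := by
    have : (θ - θ') * w ^ 2 ≤ 0 := mul_nonpos_of_nonpos_of_nonneg (by linarith [S.hθge]) hw20
    exact mul_nonpos_of_nonneg_of_nonpos R.hG this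
  have k6 : c * v0 ≤ c * v := mul_le_mul_of_nonneg_left hv S.hc.le
  have k7 : 10 * a * v ≤ c * v := mul_le_mul_of_nonneg_right (by linarith) hvpos.le
  have k8 : 0 < c * v := mul_pos S.hc hvpos
  have key : μ * (y * (z + (r - 1) * v + v) - θ * x ^ 2) + G * (θ * w ^ 2 - x * (y + v))
      - (κ * (y * z + r * v * y - θ' * x ^ 2) + G * (θ' * w ^ 2 - x * (y + v)))
      = (μ - κ) * (y * z) + (μ - κ) * (r * v * y) + (κ * θ' - μ * θ) * x ^ 2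
        + G * ((θ - θ') * w ^ 2) := by ring
  linarith

theorem Small.al3 (S : Small μ θ c r κ θ' v0 B H) (R : RegOK μ θ c G g0 H e σ) (k : Fin J)
    {w x z v y : ℝ}
    (hw : 0 ≤ w) (hw1 : w ≤ 1) (hx : 0 ≤ x) (hx1 : x ≤ 1) (hz : 0 ≤ z) (hz1 : z ≤ 1)
    (hv : v0 ≤ v) (hy : y = H k * x - e k - σ k * v) (hy0 : 0 ≤ y) (hzy : z ≤ g0 + G * y)
    (hl : ∀ l, H l * w - e l - σ l * (v / r) ≤ x) (hl2 : ∀ l, H l * x - e l - σ l * v ≤ y) :
    0 < κ * (θ' * x ^ 2 - y * z - r * v * y) - H k * (θ' * w ^ 2 - x * (y + v)) := by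
  have hv0 := S.hv0
  have hvpos : 0 < v := by linarith
  have hr1 := S.hr1
  have hE := R.E3 k w x z v y hw hw1 hx hx1 hz hz1 hvpos.le hy hy0 hzy (by
    intro l
    have h1 := hl l
    have h2 : v / r ≤ v := div_le_self hvpos.le hr1.le
    have h3 : σ l * (v / r) ≤ σ l * v := mul_le_mul_of_nonneg_left h2 (by linarith [R.hσ l])
    linarith) hl2
  have hκ0 := S.hκ0
  have hκr := S.hκ
  have hH := R.hH k
  have hw2 : w ^ 2 ≤ 1 := pow_le_one₀ hw hw1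
  have hw20 : 0 ≤ w ^ 2 := sq_nonneg w
  obtain ⟨a, ha⟩ : ∃ a, a = μ * (r - 1) := ⟨_, rfl⟩
  have ha0 : 0 < a := by rw [ha]; exact mul_pos S.hμ (by linarith)
  have k1 : 0 ≤ (κ * θ' - μ * θ) * x ^ 2 := by
    have h1 : κ * θ' - μ * θ = θ * (μ * (r - 1)) * (r + 1) := by
      rw [S.hθ', ← hκr]; ring
    rw [h1, ← ha]
    exact mul_nonneg (mul_nonneg (mul_nonneg S.hθ0 ha0.le) (by linarith)) (sq_nonneg x)
  have k2 : 0 ≤ (μ - κ) * (y * z) := by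
    apply mul_nonneg _ (mul_nonneg hy0 hz)
    rw [← hκr]; nlinarith
  have k3 : H k * ((θ' - θ) * w ^ 2) ≤ 7 * (B * (r - 1)) := by
    have h1 : (θ' - θ) * w ^ 2 ≤ (θ' - θ) * 1 :=
      mul_le_mul_of_nonneg_left hw2 (by linarith [S.hθge])
    have h2 : θ' - θ ≤ 7 * (r - 1) := by linarith [S.hθθ]
    have h3 : (θ' - θ) * w ^ 2 ≤ 7 * (r - 1) := by linarith
    calc H k * ((θ' - θ) * w ^ 2) ≤ H k * (7 * (r - 1)) := mul_le_mul_of_nonneg_left h3 hH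
      _ ≤ B * (7 * (r - 1)) := mul_le_mul_of_nonneg_right (S.hB k) (by linarith)
      _ = 7 * (B * (r - 1)) := by ring
  have k4 : 0 < B * (r - 1) := mul_pos (by linarith [S.hB1]) (by linarith)
  have s3 := S.s3
  have k6 : c * v0 ≤ c * v := mul_le_mul_of_nonneg_left hv S.hc.le
  have k7 : κ * (r * v * y) = μ * (v * y) := by rw [← hκr]; ring
  have key : κ * (θ' * x ^ 2 - y * z - r * v * y) - H k * (θ' * w ^ 2 - x * (y + v))
      - (μ * (θ * x ^ 2 - y * z - v * y) - H k * (θ * w ^ 2 - x * (y + v)))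
      = (κ * θ' - μ * θ) * x ^ 2 + (μ - κ) * (y * z) + (μ * (v * y) - κ * (r * v * y))
        - H k * ((θ' - θ) * w ^ 2) := by ring
  linarith

end Pool.Agent.W268.Dy
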