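import Pool.Agent.W268.Dy.Cert

/-! Invariant regions (exact inequalities) and their perturbation -/

namespace Pool.Agent.W268.Dy

/-- exact inequalities for an invariant region of consecutive shells: `y ≤ g0 + G x`,
`y ≥ H k x - e k - σ k v`, `x ≤ 1` -/
structure RegOK (μ θ c G g0 : ℝ) {J : ℕ} (H e σ : Fin J → ℝ) : Prop where
  hG : 0 ≤ G
  hG1 : G ≤ 1
  hg0 : 1 / 4 ≤ g0
  hH : ∀ k, 0 ≤ H k
  he : ∀ k, H k < 5 * e k
  he1 : ∀ k, H k - e k ≤ 1
  hσ : ∀ k, 1 / 4 ≤ σ k
  hσ1 : ∀ k, σ k ≤ 1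
  E1 : ∀ y v : ℝ, 0 ≤ y → 0 ≤ v → (∀ k, H k - e k - σ k * v ≤ y) → θ + c * v ≤ y + v
  E2 : ∀ w x z v : ℝ, 0 ≤ w → w ≤ 1 → 0 ≤ x → x ≤ 1 → 0 ≤ z → 0 ≤ v → x ≤ g0 + G * w →
      g0 + G * x ≤ 1 → (∀ k, H k * (g0 + G * x) - e k - σ k * v ≤ z) →
      c * v ≤ μ * ((g0 + G * x) * (z + v) - θ * x ^ 2) + G * (θ * w ^ 2 - x * ((g0 + G * x) + v))
  E3 : ∀ k, ∀ w x z v y : ℝ, 0 ≤ w → w ≤ 1 → 0 ≤ x → x ≤ 1 → 0 ≤ z → z ≤ 1 → 0 ≤ v →
      y = H k * x - e k - σ k * v → 0 ≤ y → z ≤ g0 + G * y →
      (∀ l, H l * w - e l - σ l * v ≤ x) → (∀ l, H l * x - e l - σ l * v ≤ y) →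
      c * v ≤ μ * (θ * x ^ 2 - y * z - v * y) - H k * (θ * w ^ 2 - x * (y + v))

/-- slopes for case A -/
noncomputable def HA : Fin 3 → ℝ := ![33 / 20, 5 / 4, 13 / 20]
noncomputable def eA (d : ℝ) : Fin 3 → ℝ := ![13 / 20 + d, 2 / 5 + 13 / 20 * d, 3 / 20 + d / 5]
noncomputable def σA : Fin 3 → ℝ := ![4 / 5, 9 / 10, 2 / 5]

theorem regA (d : ℝ) (hd : 0 ≤ d) (hd1 : d ≤ 2 / 3) :
    RegOK 4 (1 - d) (1 / 10) (13 / 20) (7 / 20 + d / 4) HA (eA d) σA where
  hG := by norm_num
  hG1 := by norm_num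
  hg0 := by linarith
  hH := by intro k; fin_cases k <;> simp [HA] <;> norm_num
  he := by intro k; fin_cases k <;> simp [HA, eA] <;> linarith
  he1 := by intro k; fin_cases k <;> simp [HA, eA] <;> linarith
  hσ := by intro k; fin_cases k <;> simp [σA] <;> norm_num
  hσ1 := by intro k; fin_cases k <;> simp [σA] <;> norm_num
  E1 := by
    intro y v hy hv h
    have h0 := h 0
    simp only [HA, eA, σA, Matrix.cons_val_zero] at h0
    linarith
  E2 := by
    intro w x z v hw hw1 hx hx1 hz hv hgw hy1 h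
    have h0 := h 0
    have h1 := h 1
    have h2 := h 2
    simp only [HA, eA, σA, Matrix.cons_val_zero, Matrix.cons_val_one, Matrix.cons_val] at h0 h1 h2
    rcases le_total x (9 / 20) with hx2 | hx2
    · have := c2_0 w x z v d (by linarith) (by linarith) (by linarith) (by linarith) hz hv hd
        (by linarith) (by linarith) (by linarith) (by linarith) (by linarith) (by linarith)
        (by linarith) (by linarith)
      linarith
    rcases le_total x (3 / 5) with hx3 | hx3
    · have := c2_1 w x z v d (by linarith) (by linarith) (by linarith) (by linarith) hz hv hd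
        (by linarith) (by linarith) (by linarith) (by linarith) (by linarith) (by linarith)
        (by linarith) (by linarith)
      linarith
    rcases le_total x (4 / 5) with hx4 | hx4
    · have := c2_2 w x z v d (by linarith) (by linarith) (by linarith) (by linarith) hz hv hd
        (by linarith) (by linarith) (by linarith) (by linarith) (by linarith) (by linarith)
        (by linarith) (by linarith)
      linarith
    · have := c2_3 w x z v d (by linarith) (by linarith) (by linarith) (by linarith) hz hv hd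
        (by linarith) (by linarith) (by linarith) (by linarith) (by linarith) (by linarith)
        (by linarith) (by linarith)
      linarith
  E3 := by
    intro k w x z v y hw hw1 hx hx1 hz hz1 hv hy hy0 hgz hwl hxl
    have a0 := hwl 0
    have a1 := hwl 1
    have a2 := hwl 2
    have b0 := hxl 0
    have b1 := hxl 1
    have b2 := hxl 2
    simp only [HA, eA, σA, Matrix.cons_val_zero, Matrix.cons_val_one, Matrix.cons_val] at a0 a1 a2 b0 b1 b2
    fin_cases k
    · simp only [HA, eA, σA, Fin.zero_eta, Matrix.cons_val_zero] at hy ⊢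
      subst hy
      have := c3_0 w x z v d (by linarith) (by linarith) (by linarith) (by linarith) hz hv hd
        (by linarith) (by linarith) (by linarith) (by linarith) (by linarith) (by linarith)
        (by linarith) (by linarith) (by linarith)
      linarith
    · simp only [HA, eA, σA, Fin.mk_one, Matrix.cons_val_one, Matrix.cons_val_zero] at hy ⊢
      subst hy
      have := c3_1 w x z v d (by linarith) (by linarith) (by linarith) (by linarith) hz hv hd
        (by linarith) (by linarith) (by linarith) (by linarith) (by linarith) (by linarith)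
        (by linarith) (by linarith) (by linarith)
      linarith
    · simp only [HA, eA, σA, Fin.reduceFinMk, Matrix.cons_val] at hy ⊢
      subst hy
      have := c3_2 w x z v d (by linarith) (by linarith) (by linarith) (by linarith) hz hv hd
        (by linarith) (by linarith) (by linarith) (by linarith) (by linarith) (by linarith)
        (by linarith) (by linarith) (by linarith)
      linarith

/-- case B: one line, no upper line -/
theorem regB (μ θ : ℝ) (hθ : 0 < θ) (hθ1 : θ < 1) (hμ : 10 * θ ≤ μ) :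
    RegOK μ θ (min 1 μ * ((1 - θ) / 2)) 0 1 (fun _ : Fin 1 => (μ - θ) / 2)
      (fun _ => (μ - θ) / 2 - θ) (fun _ => (1 + θ) / 2) := by
  have hμ0 : 0 < μ := by linarith
  have hm1 : min 1 μ ≤ 1 := min_le_left _ _
  have hm2 : min 1 μ ≤ μ := min_le_right _ _
  have hm0 : 0 < min 1 μ := lt_min one_pos hμ0
  refine ⟨le_rfl, by norm_num, by norm_num, fun _ => by linarith, fun _ => by linarith,
    fun _ => by linarith, fun _ => by linarith, fun _ => by linarith, ?_, ?_, ?_⟩
  · intro y v hy hv h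
    have h0 := h 0
    have : min 1 μ * ((1 - θ) / 2) * v ≤ 1 * ((1 - θ) / 2) * v := by
      apply mul_le_mul_of_nonneg_right _ hv
      apply mul_le_mul_of_nonneg_right hm1
      linarith
    nlinarith
  · intro w x z v hw hw1 hx hx1 hz hv _ _ h
    have h0 := h 0
    have h1 : min 1 μ * ((1 - θ) / 2) * v ≤ μ * ((1 - θ) / 2) * v := by
      apply mul_le_mul_of_nonneg_right _ hv
      apply mul_le_mul_of_nonneg_right hm2
      linarith
    have h2 : θ * x ^ 2 ≤ θ := mul_le_of_le_one_right hθ.le (pow_le_one₀ hx hx1)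
    have h3 : (1 - θ) / 2 * v ≤ z + v - θ * x ^ 2 := by nlinarith
    have h4 : μ * ((1 - θ) / 2 * v) ≤ μ * (z + v - θ * x ^ 2) :=
      mul_le_mul_of_nonneg_left h3 hμ0.le
    nlinarith
  · intro k w x z v y hw hw1 hx hx1 hz hz1 hv hy hy0 _ hwl hxl
    obtain ⟨ξ, hξ⟩ : ∃ ξ, ξ = 1 - x := ⟨_, rfl⟩
    have hξ0 : 0 ≤ ξ := by linarith
    have hx' : x = 1 - ξ := by linarith
    obtain ⟨Hh, hHh⟩ : ∃ Hh, Hh = (μ - θ) / 2 := ⟨_, rfl⟩
    rw [← hHh] at hy ⊢
    have hH0 : 0 ≤ Hh := by linarith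
    have hyle : y ≤ θ := by
      have : Hh * ξ ≥ 0 := mul_nonneg hH0 hξ0
      have : (1 + θ) / 2 * v ≥ 0 := mul_nonneg (by linarith) hv
      rw [hy, hx']; nlinarith
    -- the main quadratic: H^2 + (θ - μ) H + 2 μ θ ≤ 0
    have hq : Hh ^ 2 + (θ - μ) * Hh + 2 * μ * θ ≤ 0 := by
      rw [hHh]
      nlinarith
    have hw2 : θ * w ^ 2 ≤ θ := mul_le_of_le_one_right hθ.le (pow_le_one₀ hw hw1)
    have hz2 : y * z ≤ y := mul_le_of_le_one_right hy0 hz1
    have hc1 : min 1 μ * ((1 - θ) / 2) * v ≤ μ * ((1 - θ) / 2) * v := by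
      apply mul_le_mul_of_nonneg_right _ hv
      apply mul_le_mul_of_nonneg_right hm2
      linarith
    -- lower bound with z = 1, w = 1
    have hA : μ * (θ * x ^ 2 - y - v * y) - Hh * (θ - x * (y + v))
        ≤ μ * (θ * x ^ 2 - y * z - v * y) - Hh * (θ * w ^ 2 - x * (y + v)) := by
      have a1 : μ * (y * z) ≤ μ * y := mul_le_mul_of_nonneg_left hz2 hμ0.le
      have a2 : Hh * (θ * w ^ 2) ≤ Hh * θ := mul_le_mul_of_nonneg_left hw2 hH0
      nlinarith
    have hB : μ * (θ * x ^ 2 - y - v * y) - Hh * (θ - x * (y + v))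
        = ξ * (-(Hh ^ 2 + (θ - μ) * Hh + 2 * μ * θ)) + ξ ^ 2 * (μ * θ + Hh ^ 2)
          + v * (μ * ((1 + θ) / 2 - y) + Hh * (1 - (1 + θ) / 2) * x) := by
      rw [hy, hx']; ring
    have hC : μ * ((1 - θ) / 2) * v ≤ v * (μ * ((1 + θ) / 2 - y) + Hh * (1 - (1 + θ) / 2) * x) := by
      have b1 : μ * ((1 - θ) / 2) ≤ μ * ((1 + θ) / 2 - y) :=
        mul_le_mul_of_nonneg_left (by linarith) hμ0.le
      have b2 : 0 ≤ Hh * (1 - (1 + θ) / 2) * x := mul_nonneg (mul_nonneg hH0 (by linarith)) hx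
      have b3 : μ * ((1 - θ) / 2) ≤ μ * ((1 + θ) / 2 - y) + Hh * (1 - (1 + θ) / 2) * x := by linarith
      have := mul_le_mul_of_nonneg_left b3 hv
      linarith
    have hD : 0 ≤ ξ * (-(Hh ^ 2 + (θ - μ) * Hh + 2 * μ * θ)) := mul_nonneg hξ0 (by linarith)
    have hE : 0 ≤ ξ ^ 2 * (μ * θ + Hh ^ 2) := by positivity
    linarith

end Pool.Agent.W268.Dy
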