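import Pool.Agent.W268.Dy.Stm

/-! # Blow-up for `q² > K μ³`: statements of the parts -/

namespace Pool.Agent.W268.Dy

open Finset

/-- sum over the children -/
def ch {K : ℕ} (x : Node K → ℝ) (w : Node K) : ℝ := ∑ c : Fin K, x (c :: w)

/-- energy of generation `n` -/
def g2 {K : ℕ} (n : ℕ) (x : Node K → ℝ) : ℝ := gsum n (fun w => x w ^ 2)

/-- third moment of generation `n` -/
def g3 {K : ℕ} (n : ℕ) (x : Node K → ℝ) : ℝ := gsum n (fun w => x w ^ 3)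

/-- transfer from generation `n` to generation `n + 1` -/
def gT {K : ℕ} (n : ℕ) (x : Node K → ℝ) : ℝ := gsum n (fun w => x w ^ 2 * ch x w)

/-- time derivative of the energy of generation `n` -/
def dE {K : ℕ} (ν μ q : ℝ) (n : ℕ) (x : Node K → ℝ) : ℝ :=
  gsum n (fun w => 2 * x w * rhs ν μ q x w)

/-- time derivative of `gsum n (fun w => x w * ch x w)` -/
def dX {K : ℕ} (ν μ q : ℝ) (n : ℕ) (x : Node K → ℝ) : ℝ :=
  gsum n (fun w => rhs ν μ q x w * ch x w + x w * ∑ c : Fin K, rhs ν μ q x (c :: w))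

/-- DB-E: weighted energy balance up to generation `N` -/
def S_bE : Prop := ∀ (K : ℕ) (ν μ q c : ℝ) (N : ℕ) (x : Node K → ℝ),
  ∑ n ∈ range (N + 1), c ^ n * dE ν μ q n x =
    -(2 * ν * ∑ n ∈ range (N + 1), (c * μ) ^ n * g2 n x)
      + 2 * (c - 1) * ∑ n ∈ range N, c ^ n * q ^ (n + 1) * gT n x
      - 2 * c ^ N * q ^ (N + 1) * gT N x

/-- DB-X: lower bound for the derivative of the cross terms -/
def S_bX : Prop := ∀ (K : ℕ) (ν μ q b b' b'' : ℝ) (n : ℕ) (x : Node K → ℝ),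
  0 ≤ ν → 0 < μ → 0 < q → 0 < b → 0 < b' → 0 < b'' → (∀ w, 0 ≤ x w) →
  K * q ^ (n + 1) * g3 n x - ν * (1 + μ) * μ ^ n * (K / 2 * g2 n x + 1 / 2 * g2 (n + 1) x)
    - q ^ (n + 1) * (b / 2 * gT n x + K ^ 2 / (2 * b) * g3 (n + 1) x)
    - q ^ (n + 2) * (b' / 2 * gT n x
        + 1 / (2 * b') * (b'' / 2 * gT (n + 1) x + K ^ 2 / (2 * b'') * g3 (n + 2) x))
  ≤ dX ν μ q n x

/-- DB-O: the ordinary differential inequality `f' ≥ c f^(3/2) - C` -/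
def S_bO : Prop := ∀ c1 C2 C3 T : ℝ, 0 < c1 → 0 < C2 → 0 < C3 → 0 < T → ∃ R0 : ℝ, 0 < R0 ∧
  ∀ f : ℝ → ℝ, ContinuousOn f (Set.Icc 0 T) → R0 ≤ f 0 →
    (∀ t, 0 < t → t < T → ∃ d G : ℝ, HasDerivAt f d t ∧ c1 * G - C2 ≤ d ∧
      ∀ τ, 0 < τ → f t ≤ C3 * (τ * G + 1 / τ ^ 2)) → False

end Pool.Agent.W268.Dy
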